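import Mathlib

namespace Pool.Agent.MP_2e8011_lc

/-- The tree `H_j`: the path `0, 1, …, j`, two leaves `j+1, j+2` attached to `0` and two leaves
`j+3, j+4` attached to `j`. -/
def treeH (j : ℕ) : SimpleGraph (Fin (j + 5)) :=
  SimpleGraph.fromRel fun a b =>
    (b.val = a.val + 1 ∧ b.val ≤ j) ∨
    (a.val = 0 ∧ (b.val = j + 1 ∨ b.val = j + 2)) ∨
    (a.val = j ∧ (b.val = j + 3 ∨ b.val = j + 4))

/-- `G` has a cycle through every vertex. -/
def HasHamiltonianCycle {V : Type} [DecidableEq V] (G : SimpleGraph V) : Prop :=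
  ∃ (a : V) (p : G.Walk a a), p.IsHamiltonianCycle

open Classical in
/-- The adjacency matrix of `G`, written row by row. -/
noncomputable def adjacencyBits {n : ℕ} (G : SimpleGraph (Fin n)) : List Bool :=
  (List.finRange n).flatMap fun a => (List.finRange n).map fun b => decide (G.Adj a b)

open Classical in
/-- The language of adjacency matrices of `H_j`-subgraph-free graphs with a Hamiltonian cycle. -/
noncomputable def hamiltonianFreeLanguage (j : ℕ) : List Bool → Bool := fun x =>
  decide (∃ (n : ℕ) (G : SimpleGraph (Fin n)),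
    x = adjacencyBits G ∧ (treeH j).Free G ∧ HasHamiltonianCycle G)

end Pool.Agent.MP_2e8011_lc
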