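import Pool.Agent.MP_2e8011_lc.Subdiv

/-! The digraph attached to a grid of cells. -/

namespace Pool.Agent.MP_2e8011_lc

/-- A set of cells with a spine order `nx`, a right neighbour `rt`, a lower neighbour `dn`, a top
row, and the cells carrying a positive or a negative literal. -/
structure Grid (X : Type) where
  nx : X ≃ X
  rt : X ≃ X
  dn : X ≃ X
  top : X → Prop
  pos : X → Prop
  neg : X → Prop

/-- Unconditional arcs inside a cell. -/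
def loc (r t : ℕ) : Prop :=
  (t = r + 1 ∧ r ≠ 0 ∧ r ≠ 1 ∧ r ≠ 9) ∨ (r = t + 1 ∧ t ≠ 0 ∧ t ≠ 1 ∧ t ≠ 5 ∧ t ≠ 9) ∨
    (r = 0 ∧ t = 2) ∨ (r = 9 ∧ t = 1)

namespace Grid

variable {X : Type} (g : Grid X)

/-- The arcs. -/
def arc (x : X) (r : ℕ) (y : X) (t : ℕ) : Prop :=
  (y = x ∧ (loc r t ∨ (r = 5 ∧ t = 1 ∧ g.pos x) ∨ (r = 1 ∧ (t = 9 ∨ t = 10) ∧ ¬ g.top x))) ∨
  (x = g.rt y ∧ r = 0 ∧ t = 5) ∨
  (y = g.rt x ∧ r = 2 ∧ (t = 6 ∨ (t = 1 ∧ g.neg y))) ∨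
  (x = g.dn y ∧ r = 1 ∧ t = 13) ∨
  (y = g.dn x ∧ r = 10 ∧ (t = 9 ∨ t = 10) ∧ g.top y) ∨
  (y = g.nx (g.dn x) ∧ r = 10 ∧ t = 0 ∧ ¬ g.top (g.dn x)) ∨
  (y = g.nx x ∧ (r = 6 ∨ r = 13) ∧ t = 0)

/-- The digraph. -/
def D (u w : X × Fin 14) : Prop := g.arc u.1 u.2.val w.1 w.2.val

theorem link {V : Type} {σ : V → V} (hinj : Function.Injective σ) (hsurj : Function.Surjective σ)
    (h2 : ∀ v, σ (σ v) ≠ v) {a b c d : V} (hac : a ≠ c) (hbd : b ≠ d)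
    (hb : σ b = a ∨ σ b = c) (hc : σ c = b ∨ σ c = d) (pb : ∀ u, σ u = b → u = a ∨ u = c)
    (pc : ∀ u, σ u = c → u = b ∨ u = d) :
    (σ a = b ∧ σ b = c ∧ σ c = d) ∨ (σ d = c ∧ σ c = b ∧ σ b = a) := by
  obtain ⟨u, hu⟩ := hsurj b
  obtain ⟨w, hw⟩ := hsurj c
  have e1 := pb u hu
  have e2 := pc w hw
  have e3 := h2 b
  have e4 := h2 c
  have e5 := h2 d
  have e6 := h2 a
  grind

theorem out_rung {x y : X} {r t : ℕ} (h : g.arc x r y t)
    (hr : r = 3 ∨ r = 4 ∨ r = 7 ∨ r = 8 ∨ r = 11 ∨ r = 12) : y = x ∧ (t = r + 1 ∨ r = t + 1) := by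
  simp only [arc, loc] at h
  rcases h with ⟨h, h'⟩ | h | h | h | h | h | h
  · exact ⟨h, by omega⟩
  all_goals omega

theorem in_rung {x y : X} {r t : ℕ} (h : g.arc y t x r)
    (hr : r = 3 ∨ r = 4 ∨ r = 7 ∨ r = 8 ∨ r = 11 ∨ r = 12) : y = x ∧ (t = r + 1 ∨ r = t + 1) := by
  simp only [arc, loc] at h
  rcases h with ⟨h, h'⟩ | h | h | h | h | h | h
  · exact ⟨h.symm, by omega⟩
  all_goals omega

theorem out0 {x : X} {w : X × Fin 14} (h : g.D (g.rt x, 0) w) : w = (g.rt x, 2) ∨ w = (x, 5) := by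
  obtain ⟨y, t⟩ := w
  simp only [D, arc, loc, Prod.ext_iff, Fin.ext_iff, EmbeddingLike.apply_eq_iff_eq,
    Fin.coe_ofNat_eq_mod, Nat.reduceMod] at h ⊢
  rcases h with ⟨h, h'⟩ | h | h | h | h | h | h
  · exact Or.inl ⟨h, by omega⟩
  · exact Or.inr ⟨h.1.symm, by omega⟩
  all_goals omega

theorem in2 {x : X} {u : X × Fin 14} (h : g.D u (x, 2)) : u = (x, 0) ∨ u = (x, 3) := by
  obtain ⟨y, t⟩ := u
  simp only [D, arc, loc, Prod.ext_iff, Fin.ext_iff, Fin.coe_ofNat_eq_mod, Nat.reduceMod] at h ⊢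
  rcases h with ⟨h, h'⟩ | h | h | h | h | h | h
  · rw [← h]; simp only [true_and]; omega
  all_goals omega

theorem in5 {x : X} {u : X × Fin 14} (h : g.D u (x, 5)) : u = (g.rt x, 0) ∨ u = (x, 4) := by
  obtain ⟨y, t⟩ := u
  simp only [D, arc, loc, Prod.ext_iff, Fin.ext_iff, Fin.coe_ofNat_eq_mod, Nat.reduceMod] at h ⊢
  rcases h with ⟨h, h'⟩ | h | h | h | h | h | h
  · exact Or.inr ⟨h.symm, by omega⟩
  · exact Or.inl ⟨h.1, by omega⟩
  all_goals omega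

theorem out5 {x : X} {w : X × Fin 14} (h : g.D (x, 5) w) :
    w = (x, 4) ∨ w = (x, 6) ∨ (w = (x, 1) ∧ g.pos x) := by
  obtain ⟨y, t⟩ := w
  simp only [D, arc, loc, Prod.ext_iff, Fin.ext_iff, Fin.coe_ofNat_eq_mod, Nat.reduceMod] at h ⊢
  rcases h with ⟨h, h' | h' | h'⟩ | h | h | h | h | h | h
  · rw [h]; simp only [true_and]; omega
  · exact Or.inr (Or.inr ⟨⟨h, h'.2.1⟩, h'.2.2⟩)
  all_goals omega

theorem out2 {x : X} {w : X × Fin 14} (h : g.D (x, 2) w) :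
    w = (x, 3) ∨ w = (g.rt x, 6) ∨ (w = (g.rt x, 1) ∧ g.neg (g.rt x)) := by
  obtain ⟨y, t⟩ := w
  simp only [D, arc, loc, Prod.ext_iff, Fin.ext_iff, Fin.coe_ofNat_eq_mod, Nat.reduceMod] at h ⊢
  rcases h with ⟨h, h'⟩ | h | ⟨h, -, h' | h'⟩ | h | h | h | h
  · exact Or.inl ⟨h, by omega⟩
  · omega
  · exact Or.inr (Or.inl ⟨h, h'⟩)
  · exact Or.inr (Or.inr ⟨⟨h, h'.1⟩, h ▸ h'.2⟩)
  all_goals omega

theorem out1 {x : X} {w : X × Fin 14} (h : g.D (g.dn x, 1) w) :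
    w = (x, 13) ∨ (¬ g.top (g.dn x) ∧ (w = (g.dn x, 9) ∨ w = (g.dn x, 10))) := by
  obtain ⟨y, t⟩ := w
  simp only [D, arc, loc, Prod.ext_iff, Fin.ext_iff, EmbeddingLike.apply_eq_iff_eq,
    Fin.coe_ofNat_eq_mod, Nat.reduceMod] at h ⊢
  rcases h with ⟨h, h' | h' | h'⟩ | h | h | h | h | h | h
  · omega
  · omega
  · exact Or.inr ⟨h'.2.2, h'.2.1.imp (fun e => ⟨h, e⟩) (fun e => ⟨h, e⟩)⟩
  · omega
  · omega
  · exact Or.inl ⟨h.1.symm, h.2.2⟩
  all_goals omega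

theorem out10 {x : X} {w : X × Fin 14} (h : g.D (x, 10) w) (ht : g.top (g.dn x)) :
    w = (x, 11) ∨ w = (g.dn x, 9) ∨ w = (g.dn x, 10) := by
  obtain ⟨y, t⟩ := w
  simp only [D, arc, loc, Prod.ext_iff, Fin.ext_iff, Fin.coe_ofNat_eq_mod, Nat.reduceMod] at h ⊢
  rcases h with ⟨h, h'⟩ | h | h | h | h | h | h
  · exact Or.inl ⟨h, by omega⟩
  · omega
  · omega
  · omega
  · exact Or.inr (h.2.2.1.imp (fun e => ⟨h.1, e⟩) (fun e => ⟨h.1, e⟩))
  · exact absurd ht h.2.2.2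
  · omega

theorem sound [Finite X] {σ : X × Fin 14 → X × Fin 14} (hD : ∀ v, g.D v (σ v))
    (hinj : Function.Injective σ) (h2 : ∀ v, σ (σ v) ≠ v) :
    ∃ val zz dd : X → Prop, (∀ x, val (g.rt x) ↔ val x) ∧
      (∀ x, zz x → (val x ∧ g.pos x) ∨ (¬ val x ∧ g.neg x)) ∧
      (∀ x, ¬ g.top (g.dn x) → dd x → zz (g.dn x) ∨ dd (g.dn x)) ∧
      (∀ x, g.top (g.dn x) → ¬ dd x ∧ (zz (g.dn x) ∨ dd (g.dn x))) := by
  have hsurj : Function.Surjective σ := Finite.surjective_of_injective hinj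
  have hin : ∀ {u w}, σ u = w → g.D u w := fun {u w} h => h ▸ hD u
  have mk : ∀ (x : X) (a b c d : Fin 14), (a.val = 2 ∨ a.val = 6 ∨ a.val = 10) →
      b.val = a.val + 1 → c.val = a.val + 2 → d.val = a.val + 3 →
      (σ (x, a) = (x, b) ∧ σ (x, b) = (x, c) ∧ σ (x, c) = (x, d)) ∨
        (σ (x, d) = (x, c) ∧ σ (x, c) = (x, b) ∧ σ (x, b) = (x, a)) := by
    intro x a b c d ha hb hc hd
    refine link hinj hsurj h2 ?_ ?_ ?_ ?_ (fun u hu => ?_) (fun u hu => ?_)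
    · simp only [ne_eq, Prod.ext_iff, Fin.ext_iff]; omega
    · simp only [ne_eq, Prod.ext_iff, Fin.ext_iff]; omega
    · have := g.out_rung (hD (x, b)) (by simp only; omega)
      simp only [Prod.ext_iff, Fin.ext_iff, this.1, true_and] at this ⊢
      omega
    · have := g.out_rung (hD (x, c)) (by simp only; omega)
      simp only [Prod.ext_iff, Fin.ext_iff, this.1, true_and] at this ⊢
      omega
    · have := g.in_rung (hin hu) (by simp only; omega)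
      simp only [Prod.ext_iff, Fin.ext_iff, this.1, true_and] at this ⊢
      omega
    · have := g.in_rung (hin hu) (by simp only; omega)
      simp only [Prod.ext_iff, Fin.ext_iff, this.1, true_and] at this ⊢
      omega
  have lH := fun x => mk x 2 3 4 5 (by simp) rfl rfl rfl
  have lZ := fun x => mk x 6 7 8 9 (by simp) rfl rfl rfl
  have lW := fun x => mk x 10 11 12 13 (by simp) rfl rfl rfl
  have hi : ∀ u w, σ u = σ w → u = w := fun u w h => hinj h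
  have hval : ∀ x, σ (g.rt x, 2) = (g.rt x, 3) ↔ σ (x, 2) = (x, 3) := by
    intro x
    obtain ⟨u, hu⟩ := hsurj (g.rt x, 2)
    obtain ⟨w, hw⟩ := hsurj (x, 5)
    have e1 := g.in2 (hin hu)
    have e2 := g.in5 (hin hw)
    have e3 := g.out0 (hD (g.rt x, 0))
    have e4 := lH x
    have e5 := lH (g.rt x)
    have e6 := h2 (x, 2)
    have e7 := h2 (g.rt x, 2)
    have e8 := hi (g.rt x, 0) (g.rt x, 3)
    have e9 := hi (g.rt x, 0) (x, 4)
    generalize g.rt x = y at *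
    clear * - hu hw e1 e2 e3 e4 e5 e6 e7 e8 e9
    grind
  refine ⟨fun x => σ (x, 2) = (x, 3), fun x => σ (x, 9) = (x, 8), fun x => σ (x, 10) = (x, 11),
    hval, fun x hz => ?_, fun x ht hd => ?_, fun x ht => ?_⟩
  · obtain ⟨y, rfl⟩ := g.rt.surjective x
    have e1 := lZ (g.rt y)
    have e2 := lH (g.rt y)
    have e3 := g.out5 (hD (g.rt y, 5))
    have e4 := g.out2 (hD (y, 2))
    have e5 := hval y
    have e6 := h2 (g.rt y, 9)
    have e7 := h2 (g.rt y, 2)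
    have e8 := h2 (g.rt y, 4)
    have e9 := hi (g.rt y, 5) (g.rt y, 7)
    have e10 := hi (y, 2) (g.rt y, 7)
    generalize g.rt y = x at *
    clear * - hz e1 e2 e3 e4 e5 e6 e7 e8 e9 e10
    grind
  · have e1 := g.out1 (hD (g.dn x, 1))
    have e2 := lW x
    have e3 := lW (g.dn x)
    have e4 := lZ (g.dn x)
    have e5 := h2 (x, 10)
    have e6 := hi (g.dn x, 1) (x, 12)
    have e7 := hi (g.dn x, 1) (g.dn x, 8)
    have e8 := hi (g.dn x, 1) (g.dn x, 11)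
    generalize g.dn x = y at *
    clear * - ht hd e1 e2 e3 e4 e5 e6 e7 e8
    grind
  · have e1 := g.out1 (hD (g.dn x, 1))
    have e2 := lW x
    have e3 := lW (g.dn x)
    have e4 := lZ (g.dn x)
    have e5 := h2 (x, 10)
    have e6 := hi (g.dn x, 1) (x, 12)
    have e7 := hi (x, 10) (g.dn x, 8)
    have e8 := hi (x, 10) (g.dn x, 11)
    have e9 := g.out10 (hD (x, 10)) ht
    generalize g.dn x = y at *
    clear * - ht e1 e2 e3 e4 e5 e6 e7 e8 e9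
    grind

end Grid

end Pool.Agent.MP_2e8011_lc
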