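import Pool.Agent.MP_2e8011_lc.Gadget

/-! The digraph attached to a grid of cells: the Hamiltonian cycle and the components. -/

namespace Pool.Agent.MP_2e8011_lc

namespace Grid

variable {X : Type} (g : Grid X)

open Classical in
/-- The successor function attached to a consistent choice of states. -/
noncomputable def succ (val zz dd : X → Prop) (u : X × Fin 14) : X × Fin 14 :=
  match u.2.val with
  | 0 => if val u.1 then (u.1, 2) else (g.rt.symm u.1, 5)
  | 1 => if dd (g.dn.symm u.1) then (if zz u.1 then (u.1, 9) else (u.1, 10))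
      else (g.dn.symm u.1, 13)
  | 2 => if val u.1 then (u.1, 3) else if zz (g.rt u.1) then (g.rt u.1, 1) else (g.rt u.1, 6)
  | 3 => if val u.1 then (u.1, 4) else (u.1, 2)
  | 4 => if val u.1 then (u.1, 5) else (u.1, 3)
  | 5 => if val u.1 then (if zz u.1 then (u.1, 1) else (u.1, 6)) else (u.1, 4)
  | 6 => if zz u.1 then (g.nx u.1, 0) else (u.1, 7)
  | 7 => if zz u.1 then (u.1, 6) else (u.1, 8)
  | 8 => if zz u.1 then (u.1, 7) else (u.1, 9)
  | 9 => if zz u.1 then (u.1, 8) else (u.1, 1)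
  | 10 => if dd u.1 then (u.1, 11) else if g.top (g.dn u.1) then
      (if zz (g.dn u.1) then (g.dn u.1, 9) else (g.dn u.1, 10)) else (g.nx (g.dn u.1), 0)
  | 11 => if dd u.1 then (u.1, 12) else (u.1, 10)
  | 12 => if dd u.1 then (u.1, 13) else (u.1, 11)
  | _ => if dd u.1 then (g.nx u.1, 0) else (u.1, 12)

theorem complete {val zz dd : X → Prop} (h1 : ∀ x, val (g.rt x) ↔ val x)
    (h2 : ∀ x, zz x → (val x ∧ g.pos x) ∨ (¬ val x ∧ g.neg x))
    (h3 : ∀ x, g.top (g.dn x) → ¬ dd x ∧ (zz (g.dn x) ↔ ¬ dd (g.dn x)))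
    (h4 : ∀ x, ¬ g.top (g.dn x) → (dd x → (zz (g.dn x) ↔ ¬ dd (g.dn x))) ∧
      (¬ dd x → ¬ zz (g.dn x) ∧ ¬ dd (g.dn x)))
    (x₀ : X) (hx : ∀ x, ∃ k, g.nx^[k] x₀ = x) :
    ∃ σ : X × Fin 14 → X × Fin 14, (∀ v, g.D v (σ v)) ∧ (∀ v, ∃ n, σ^[n] (x₀, 0) = v) ∧
      ∃ n, 0 < n ∧ σ^[n] (x₀, 0) = (x₀, 0) := by
  classical
  have hD : ∀ v, g.D v (g.succ val zz dd v) := by
    rintro ⟨x, r⟩
    have e1 := h1 x
    have e2 := h2 x
    have e2' := h2 (g.rt x)
    have e3 : g.top x → ¬ dd (g.dn.symm x) := fun h =>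
      (h3 (g.dn.symm x) (by rwa [Equiv.apply_symm_apply])).1
    replace e3 : dd (g.dn.symm x) → ¬ g.top x := fun h h' => e3 h' h
    clear h1 h2 h3 h4 hx
    fin_cases r <;> simp only [D, succ] <;> split_ifs <;> simp_all [arc, loc]
  -- closure under the successor function
  have key : ∀ P : X × Fin 14 → Prop, (∀ u, P u → P (g.succ val zz dd u)) → ∀ x,
      P (g.succ val zz dd (x, 0)) → P (g.nx x, 0) ∧ P (x, 1) ∧
        (val x → P (x, 2) ∧ P (x, 3) ∧ P (x, 4) ∧ P (x, 5)) ∧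
        (¬ val x → P (g.rt.symm x, 2) ∧ P (g.rt.symm x, 3) ∧ P (g.rt.symm x, 4) ∧
          P (g.rt.symm x, 5)) ∧
        (P (x, 6) ∧ P (x, 7) ∧ P (x, 8) ∧ P (x, 9)) ∧
        (dd x → P (x, 10) ∧ P (x, 11) ∧ P (x, 12) ∧ P (x, 13)) ∧
        (¬ dd (g.dn.symm x) → P (g.dn.symm x, 10) ∧ P (g.dn.symm x, 11) ∧ P (g.dn.symm x, 12) ∧
          P (g.dn.symm x, 13)) := by
    intro P hP x h0
    have e1 := h1 (g.rt.symm x)
    have e3 := h3 (g.dn.symm x)
    have e4 := h4 (g.dn.symm x)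
    rw [Equiv.apply_symm_apply] at e1 e3 e4
    have a1 := hP (x, 1)
    have a2 := hP (x, 2)
    have a3 := hP (x, 3)
    have a4 := hP (x, 4)
    have a5 := hP (x, 5)
    have a6 := hP (x, 6)
    have a7 := hP (x, 7)
    have a8 := hP (x, 8)
    have a9 := hP (x, 9)
    have a10 := hP (x, 10)
    have a11 := hP (x, 11)
    have a12 := hP (x, 12)
    have a13 := hP (x, 13)
    have b2 := hP (g.rt.symm x, 2)
    have b3 := hP (g.rt.symm x, 3)
    have b4 := hP (g.rt.symm x, 4)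
    have b5 := hP (g.rt.symm x, 5)
    have c10 := hP (g.dn.symm x, 10)
    have c11 := hP (g.dn.symm x, 11)
    have c12 := hP (g.dn.symm x, 12)
    have c13 := hP (g.dn.symm x, 13)
    simp only [succ, Fin.coe_ofNat_eq_mod, Nat.reduceMod, Equiv.apply_symm_apply] at h0 a1 a2 a3 a4 a5 a6 a7 a8 a9 a10 a11 a12 a13 b2 b3 b4 b5 c10 c11 c12 c13
    clear hP hD hx h1 h2 h3 h4
    by_cases hv : val x <;> by_cases hz : zz x <;> by_cases hd : dd x <;>
      by_cases hu : dd (g.dn.symm x) <;> by_cases ht : g.top x <;> simp_all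
  let P : X × Fin 14 → Prop := fun u => ∃ n, 0 < n ∧ (g.succ val zz dd)^[n] (x₀, 0) = u
  have hP : ∀ u, P u → P (g.succ val zz dd u) := by
    rintro u ⟨n, hn, rfl⟩
    exact ⟨n + 1, by omega, Function.iterate_succ_apply' _ _ _⟩
  have hk : ∀ k, P (g.nx^[k + 1] x₀, 0) := by
    intro k
    induction k with
    | zero => exact (key P hP x₀ ⟨1, one_pos, rfl⟩).1
    | succ k ih =>
      rw [Function.iterate_succ_apply']
      exact (key P hP _ (hP _ ih)).1
  have h0 : ∀ x, P (x, 0) := by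
    intro x
    obtain ⟨k, hk'⟩ := hx (g.nx.symm x)
    have := hk k
    rwa [Function.iterate_succ_apply', hk', Equiv.apply_symm_apply] at this
  have hall : ∀ v, P v := by
    rintro ⟨x, r⟩
    have e0 := h0 x
    have e1 := key P hP x (hP _ (h0 x))
    have e2 := key P hP (g.rt x) (hP _ (h0 _))
    have e3 := key P hP (g.dn x) (hP _ (h0 _))
    rw [Equiv.symm_apply_apply, h1] at e2
    rw [Equiv.symm_apply_apply g.dn] at e3
    have f1 : P (x, 2) ∧ P (x, 3) ∧ P (x, 4) ∧ P (x, 5) := by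
      by_cases hv : val x
      · exact e1.2.2.1 hv
      · exact e2.2.2.2.1 hv
    have f2 : P (x, 10) ∧ P (x, 11) ∧ P (x, 12) ∧ P (x, 13) := by
      by_cases hv : dd x
      · exact e1.2.2.2.2.2.1 hv
      · exact e3.2.2.2.2.2.2 hv
    have f3 := e1.2.2.2.2.1
    fin_cases r
    exacts [e0, e1.2.1, f1.1, f1.2.1, f1.2.2.1, f1.2.2.2, f3.1, f3.2.1, f3.2.2.1, f3.2.2.2,
      f2.1, f2.2.1, f2.2.2.1, f2.2.2.2]
  exact ⟨_, hD, fun v => (hall v).imp fun n h => h.2, h0 x₀⟩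

/-- The kind of the component of an end. -/
def kind (r : Fin 14) (b : Bool) : Bool :=
  if b then decide (r.val = 1 ∨ r.val = 6 ∨ r.val = 8 ∨ 10 ≤ r.val)
  else decide (r.val = 0 ∨ r.val = 7 ∨ 9 ≤ r.val)

/-- The cell of the component of an end. -/
def home (x : X) (r : Fin 14) (b : Bool) : X :=
  if b then
    (if r.val = 2 ∨ r.val = 4 then g.rt x else if r.val = 10 ∨ r.val = 12 then g.dn x else x)
  else
    (if r.val = 3 ∨ r.val = 5 then g.rt x else if r.val = 11 ∨ r.val = 13 then g.dn x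
    else if r.val = 0 then g.nx.symm x else x)

/-- The position of an end in its component. -/
def tag (r : Fin 14) (b : Bool) : ℕ :=
  if b then [7, 7, 8, 9, 10, 11, 8, 12, 9, 13, 10, 11, 12, 13].getD r.val 0
  else [0, 0, 1, 2, 3, 4, 5, 1, 6, 2, 3, 4, 5, 6].getD r.val 0

theorem tag_lt : ∀ r b, tag r b < 14 := by decide

theorem tag_inj : ∀ r b t c, kind r b = kind t c → tag r b = tag t c → r = t ∧ b = c := by decide

theorem free {j : ℕ} (hj : 12 ≤ j) : (treeH j).Free (subdiv g.D j) := by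
  refine subdiv_free (L := 14) (by omega) (by omega)
    (fun e => (g.home e.1.1 e.1.2 e.2, kind e.1.2 e.2)) (fun e => tag e.1.2 e.2)
    (fun e => tag_lt _ _) ?_ ?_
  · rintro ⟨⟨x, r⟩, b⟩ ⟨⟨y, t⟩, c⟩ hc ht
    simp only [Prod.mk.injEq] at hc ht
    obtain ⟨rfl, rfl⟩ := tag_inj _ _ _ _ hc.2 ht
    have h4 := hc.1
    simp only [home] at h4
    split_ifs at h4 <;> simp_all
  · rintro ⟨x, r⟩ ⟨y, t⟩ h
    have hr := r.2
    have ht := t.2
    simp only [D, arc, loc] at h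
    simp only [home, kind, Bool.false_eq_true, if_false, if_true, Prod.mk.injEq, decide_eq_decide]
    rcases h with ⟨rfl, h⟩ | ⟨rfl, h⟩ | ⟨rfl, h⟩ | ⟨rfl, h⟩ | ⟨rfl, h⟩ | ⟨rfl, h⟩ | ⟨rfl, h⟩
    all_goals
      refine ⟨?_, by omega⟩
      split_ifs <;> first | omega | rfl | simp

end Grid

end Pool.Agent.MP_2e8011_lc
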