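import Pool.Agent.MP_2e8011_lc.Defs

/-! Hamiltonian cycles as cyclic sequences and as successor functions. -/

namespace Pool.Agent.MP_2e8011_lc

open SimpleGraph

variable {V : Type} [DecidableEq V] [Fintype V] {G : SimpleGraph V}

theorem hasHam_iff_contained :
    HasHamiltonianCycle G ↔ 3 ≤ Fintype.card V ∧ cycleGraph (Fintype.card V) ⊑ G := by
  constructor
  · rintro ⟨a, p, hp⟩
    have h := Walk.isHamiltonianCycle_iff_isCycle_and_length_eq.1 hp
    have h3 : 3 ≤ Fintype.card V := h.2 ▸ h.1.three_le_length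
    exact ⟨h3, (cycleGraph_isContained_iff h3).2 ⟨a, p, h⟩⟩
  · rintro ⟨h3, h⟩
    obtain ⟨a, p, h⟩ := (cycleGraph_isContained_iff h3).1 h
    exact ⟨a, p, Walk.isHamiltonianCycle_iff_isCycle_and_length_eq.2 h⟩

theorem cycle_adj_iff {n : ℕ} (hn : 3 ≤ n) (u v : Fin n) :
    (cycleGraph n).Adj u v ↔ v.val = (u.val + 1) % n ∨ u.val = (v.val + 1) % n := by
  obtain ⟨m, rfl⟩ : ∃ m, n = m + 3 := ⟨n - 3, by omega⟩
  rw [cycleGraph_adj, sub_eq_iff_eq_add', sub_eq_iff_eq_add', Fin.ext_iff, Fin.ext_iff,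
    Fin.val_add, Fin.val_add]
  simp [or_comm]

theorem hasHam_iff_seq : HasHamiltonianCycle G ↔ 3 ≤ Fintype.card V ∧
    ∃ f : ℕ → V, (∀ i < Fintype.card V, ∀ j < Fintype.card V, f i = f j → i = j) ∧
      ∀ i < Fintype.card V, G.Adj (f i) (f ((i + 1) % Fintype.card V)) := by
  rw [hasHam_iff_contained]
  refine and_congr_right fun h3 => ⟨?_, ?_⟩
  · rintro ⟨φ⟩
    have h0 : 0 < Fintype.card V := by omega
    refine ⟨fun i => φ ⟨i % Fintype.card V, Nat.mod_lt _ h0⟩, fun i hi j hj h => ?_,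
      fun i hi => φ.toHom.map_adj ?_⟩
    · have := φ.injective h
      simpa [Nat.mod_eq_of_lt hi, Nat.mod_eq_of_lt hj] using this
    · rw [cycle_adj_iff h3]
      simp
  · rintro ⟨f, hf, hadj⟩
    refine ⟨⟨⟨fun i => f i, fun {u v} h => ?_⟩, fun u v h => Fin.ext (hf _ u.2 _ v.2 h)⟩⟩
    rcases (cycle_adj_iff h3 u v).1 h with h | h
    · have := hadj u u.2
      rwa [← h] at this
    · have := hadj v v.2
      rw [← h] at this
      exact this.symm

theorem hasHam_of_succ (h3 : 3 ≤ Fintype.card V) (f : V → V) (hadj : ∀ v, G.Adj v (f v)) (s : V)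
    (hreach : ∀ v, ∃ n, f^[n] s = v) (hper : ∃ n, 0 < n ∧ f^[n] s = s) :
    HasHamiltonianCycle G := by
  obtain ⟨n, hn, hs⟩ := hper
  have hmem : s ∈ Function.periodicPts f := Function.mk_mem_periodicPts hn hs
  have hpos := Function.minimalPeriod_pos_of_mem_periodicPts hmem
  have hinj := Function.iterate_injOn_Iio_minimalPeriod (f := f) (x := s)
  have hcard : Fintype.card V = Function.minimalPeriod f s := by
    rw [← Fintype.card_fin (Function.minimalPeriod f s)]
    symm
    refine Fintype.card_congr (Equiv.ofBijective (fun i => f^[i] s) ⟨fun i j h => ?_, fun v => ?_⟩)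
    · exact Fin.ext (hinj i.2 j.2 h)
    · obtain ⟨k, rfl⟩ := hreach v
      exact ⟨⟨k % _, Nat.mod_lt _ hpos⟩, Function.iterate_mod_minimalPeriod_eq⟩
  refine hasHam_iff_seq.2 ⟨h3, fun i => f^[i] s, fun i hi j hj h => ?_, fun i _ => ?_⟩
  · rw [hcard] at hi hj
    exact hinj hi hj h
  · rw [hcard]
    beta_reduce
    rw [Function.iterate_mod_minimalPeriod_eq, Function.iterate_succ_apply']
    exact hadj _

theorem succ_of_hasHam (h : HasHamiltonianCycle G) : ∃ τ : V → V, (∀ v, G.Adj v (τ v)) ∧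
    Function.Injective τ ∧ (∀ v, τ (τ v) ≠ v) ∧ ∀ u v, ∃ n, τ^[n] u = v := by
  obtain ⟨h3, f, hf, hadj⟩ := hasHam_iff_seq.1 h
  set N := Fintype.card V with hN
  have h0 : 0 < N := by omega
  have hsurj : ∀ v, ∃ i, i < N ∧ f i = v := by
    have : Function.Bijective (fun i : Fin N => f i) := by
      rw [Fintype.bijective_iff_injective_and_card]
      exact ⟨fun i j h => Fin.ext (hf _ i.2 _ j.2 h), by simp [hN]⟩
    intro v
    obtain ⟨i, hi⟩ := this.2 v
    exact ⟨i, i.2, hi⟩
  choose ix hix hfx using hsurj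
  have hixf : ∀ i < N, ix (f i) = i := fun i hi => hf _ (hix _) _ hi (hfx _)
  have hτ : ∀ i, f ((ix (f (i % N)) + 1) % N) = f ((i + 1) % N) := fun i => by
    rw [hixf _ (Nat.mod_lt _ h0), Nat.mod_add_mod]
  refine ⟨fun v => f ((ix v + 1) % N), fun v => ?_, fun u v huv => ?_, fun v hv => ?_,
    fun u v => ?_⟩
  · have := hadj _ (hix v)
    rwa [hfx] at this
  · have h1 := hf _ (Nat.mod_lt _ h0) _ (Nat.mod_lt _ h0) huv
    have h2 : ix u = ix v := by
      have := Nat.ModEq.add_right_cancel' 1 h1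
      exact Nat.ModEq.eq_of_lt_of_lt this (hix u) (hix v)
    rw [← hfx u, h2, hfx]
  · beta_reduce at hv
    rw [hτ] at hv
    have h1 := hf _ (Nat.mod_lt _ h0) _ (hix _) (hv.trans (hfx v).symm)
    have h2 := hix v
    by_cases h4 : ix v + 1 + 1 < N
    · rw [Nat.mod_eq_of_lt h4] at h1; omega
    · rw [Nat.mod_eq_sub_mod (by omega), Nat.mod_eq_of_lt (by omega)] at h1; omega
  · have key : ∀ n i, (fun v => f ((ix v + 1) % N))^[n] (f (i % N)) = f ((i + n) % N) := by
      intro n
      induction n with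
      | zero => intro i; rfl
      | succ n ih =>
        intro i
        rw [Function.iterate_succ_apply', ih, hτ, add_assoc]
    refine ⟨ix v + N - ix u, ?_⟩
    have := key (ix v + N - ix u) (ix u)
    rw [Nat.mod_eq_of_lt (hix u), hfx, show ix u + (ix v + N - ix u) = ix v + N by
      have := hix u; omega, Nat.add_mod_right, Nat.mod_eq_of_lt (hix v), hfx] at this
    exact this

theorem hasHam_congr {W : Type} [DecidableEq W] [Fintype W] {H : SimpleGraph W} (e : G ≃g H) :
    HasHamiltonianCycle G ↔ HasHamiltonianCycle H := by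
  rw [hasHam_iff_contained, hasHam_iff_contained, Fintype.card_congr e.toEquiv,
    isContained_congr_right e]

end Pool.Agent.MP_2e8011_lc
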