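import Mathlib

/-! Locality of one step of a multi-stack machine. -/

namespace Pool.Agent.MP_2e8011_lc

open Turing

variable {K : Type} [DecidableEq K] {Γ : K → Type} {Λ σ : Type}

/-- Number of stack operations along the longest branch. -/
def depth : TM2.Stmt Γ Λ σ → ℕ
  | .push _ _ q => depth q + 1
  | .peek _ _ q => depth q + 1
  | .pop _ _ q => depth q + 1
  | .load _ q => depth q
  | .branch _ q₁ q₂ => max (depth q₁) (depth q₂)
  | .goto _ => 0
  | .halt => 0

theorem stepAux_append (q : TM2.Stmt Γ Λ σ) : ∀ (v : σ) (W R : ∀ k, List (Γ k)),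
    (∀ k, depth q ≤ (W k).length ∨ R k = []) →
    TM2.stepAux q v (fun k => W k ++ R k) =
      ⟨(TM2.stepAux q v W).l, (TM2.stepAux q v W).var,
        fun k => (TM2.stepAux q v W).stk k ++ R k⟩ := by
  induction q with
  | push k f q ih =>
    intro v W R h
    simp only [TM2.stepAux]
    rw [← ih v (Function.update W k (f v :: W k)) R]
    · congr 1
      funext j
      by_cases hj : j = k
      · subst hj; simp
      · simp [hj]
    · intro j
      refine (h j).imp_left (fun h => ?_)
      simp only [depth] at h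
      by_cases hj : j = k
      · subst hj; simp; omega
      · simp [hj]; omega
  | peek k f q ih =>
    intro v W R h
    simp only [TM2.stepAux]
    have : (W k ++ R k).head? = (W k).head? := by
      rcases h k with h | h
      · simp only [depth] at h
        cases hW : W k with
        | nil => simp [hW] at h
        | cons a l => simp
      · simp [h]
    rw [this, ih]
    intro j
    refine (h j).imp_left (fun h => ?_)
    simp only [depth] at h
    omega
  | pop k f q ih =>
    intro v W R h
    simp only [TM2.stepAux]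
    have : (W k ++ R k).head? = (W k).head? ∧ (W k ++ R k).tail = (W k).tail ++ R k := by
      rcases h k with h | h
      · simp only [depth] at h
        cases hW : W k with
        | nil => simp [hW] at h
        | cons a l => simp
      · simp [h]
    rw [this.1, this.2, ← ih _ (Function.update W k (W k).tail) R]
    · congr 1
      funext j
      by_cases hj : j = k
      · subst hj; simp
      · simp [hj]
    · intro j
      refine (h j).imp_left (fun h => ?_)
      simp only [depth] at h
      by_cases hj : j = k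
      · subst hj; simp; omega
      · simp [hj]; omega
  | load f q ih =>
    intro v W R h
    simp only [TM2.stepAux]
    exact ih _ W R h
  | branch f q₁ q₂ ih₁ ih₂ =>
    intro v W R h
    simp only [TM2.stepAux]
    cases f v
    · exact ih₂ v W R (fun j => (h j).imp_left (fun h => le_trans (le_max_right _ _) h))
    · exact ih₁ v W R (fun j => (h j).imp_left (fun h => le_trans (le_max_left _ _) h))
  | goto f => intro v W R _; rfl
  | halt => intro v W R _; rfl

/-- The symbols a statement can push. -/
def syms : TM2.Stmt Γ Λ σ → Set (Σ k, Γ k)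
  | .push k f q => Set.range (fun v => (⟨k, f v⟩ : Σ k, Γ k)) ∪ syms q
  | .peek _ _ q => syms q
  | .pop _ _ q => syms q
  | .load _ q => syms q
  | .branch _ q₁ q₂ => syms q₁ ∪ syms q₂
  | .goto _ => ∅
  | .halt => ∅

omit [DecidableEq K] in
theorem syms_finite [Finite σ] (q : TM2.Stmt Γ Λ σ) : (syms q).Finite := by
  induction q with
  | push k f q ih => exact (Set.finite_range _).union ih
  | peek k f q ih => exact ih
  | pop k f q ih => exact ih
  | load f q ih => exact ih
  | branch f q₁ q₂ ih₁ ih₂ => exact ih₁.union ih₂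
  | goto f => exact Set.finite_empty
  | halt => exact Set.finite_empty

/-- All stack symbols lie in `A`. -/
def Over (A : Set (Σ k, Γ k)) (S : ∀ k, List (Γ k)) : Prop := ∀ k, ∀ γ ∈ S k, ⟨k, γ⟩ ∈ A

theorem over_stepAux {A : Set (Σ k, Γ k)} (q : TM2.Stmt Γ Λ σ) : ∀ (v : σ) (S : ∀ k, List (Γ k)),
    syms q ⊆ A → Over A S → Over A (TM2.stepAux q v S).stk := by
  induction q with
  | push k f q ih =>
    intro v S hq hS
    refine ih v _ (fun x hx => hq (Or.inr hx)) (fun j γ hγ => ?_)
    by_cases hj : j = k
    · subst hj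
      simp only [Function.update_self, List.mem_cons] at hγ
      rcases hγ with rfl | hγ
      · exact hq (Or.inl ⟨v, rfl⟩)
      · exact hS _ _ hγ
    · rw [Function.update_of_ne hj] at hγ
      exact hS _ _ hγ
  | peek k f q ih => intro v S hq hS; exact ih _ S hq hS
  | pop k f q ih =>
    intro v S hq hS
    refine ih _ _ hq (fun j γ hγ => ?_)
    by_cases hj : j = k
    · subst hj
      simp only [Function.update_self] at hγ
      exact hS _ _ (List.mem_of_mem_tail hγ)
    · rw [Function.update_of_ne hj] at hγ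
      exact hS _ _ hγ
  | load f q ih => intro v S hq hS; exact ih _ S hq hS
  | branch f q₁ q₂ ih₁ ih₂ =>
    intro v S hq hS
    simp only [TM2.stepAux]
    cases f v
    · exact ih₂ v S (fun x hx => hq (Or.inr hx)) hS
    · exact ih₁ v S (fun x hx => hq (Or.inl hx)) hS
  | goto f => intro v S _ hS; exact hS
  | halt => intro v S _ hS; exact hS

/-- One step, a halted configuration being left unchanged. -/
def nxt (m : Λ → TM2.Stmt Γ Λ σ) (c : TM2.Cfg Γ Λ σ) : TM2.Cfg Γ Λ σ :=
  match c.l with
  | none => c
  | some l => TM2.stepAux (m l) c.var c.stk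

theorem nxt_iter_of_steps (m : Λ → TM2.Stmt Γ Λ σ) (n : ℕ) : ∀ c c' : TM2.Cfg Γ Λ σ,
    (flip bind (TM2.step m))^[n] (some c) = some c' → (nxt m)^[n] c = c' := by
  induction n with
  | zero => intro c c' h; simpa using h
  | succ n ih =>
    intro c c' h
    rw [Function.iterate_succ_apply] at h ⊢
    obtain ⟨l, v, S⟩ := c
    cases l with
    | none =>
      exfalso
      have : ∀ n, (flip bind (TM2.step m))^[n] (none : Option (TM2.Cfg Γ Λ σ)) = none :=
        fun n => Function.iterate_fixed rfl n
      change (flip bind (TM2.step m))^[n] none = _ at h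
      rw [this] at h
      cases h
    | some l => exact ih _ _ h

theorem nxt_iter_halt (m : Λ → TM2.Stmt Γ Λ σ) {c : TM2.Cfg Γ Λ σ} (h : c.l = none) (n : ℕ) :
    (nxt m)^[n] c = c := Function.iterate_fixed (by simp [nxt, h]) n

theorem over_nxt {A : Set (Σ k, Γ k)} {m : Λ → TM2.Stmt Γ Λ σ} (hm : ∀ l, syms (m l) ⊆ A)
    {c : TM2.Cfg Γ Λ σ} (h : Over A c.stk) : Over A (nxt m c).stk := by
  unfold nxt
  split
  · exact h
  · exact over_stepAux _ _ _ (hm _) h

/-- The window of a configuration: the top `d` symbols of each stack. -/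
def win (d : ℕ) (c : TM2.Cfg Γ Λ σ) : TM2.Cfg Γ Λ σ := ⟨c.l, c.var, fun k => (c.stk k).take d⟩

theorem nxt_local {m : Λ → TM2.Stmt Γ Λ σ} {d : ℕ} (hd : ∀ l, depth (m l) ≤ d)
    (c : TM2.Cfg Γ Λ σ) :
    nxt m c = ⟨(nxt m (win d c)).l, (nxt m (win d c)).var,
      fun k => (nxt m (win d c)).stk k ++ (c.stk k).drop d⟩ := by
  obtain ⟨l, v, S⟩ := c
  cases l with
  | none => simp [nxt, win]
  | some l =>
    simp only [nxt, win]
    rw [← stepAux_append (m l) v (fun k => (S k).take d) (fun k => (S k).drop d)]
    · simp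
    · intro k
      by_cases h : d ≤ (S k).length
      · left; simp [h, hd l]
      · right; simp; omega

omit [DecidableEq K] in
theorem windows_finite [Finite K] [Finite Λ] [Finite σ] {A : Set (Σ k, Γ k)} (hA : A.Finite)
    (d : ℕ) : {c : TM2.Cfg Γ Λ σ | (∀ k, (c.stk k).length ≤ d) ∧ Over A c.stk}.Finite := by
  have h1 : ∀ k, {l : List (Γ k) | l.length ≤ d ∧ ∀ γ ∈ l, (⟨k, γ⟩ : Σ k, Γ k) ∈ A}.Finite := by
    intro k
    have hk : {γ : Γ k | (⟨k, γ⟩ : Σ k, Γ k) ∈ A}.Finite :=
      hA.preimage (sigma_mk_injective.injOn)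
    have := hk.to_subtype
    refine ((List.finite_length_le {γ : Γ k | (⟨k, γ⟩ : Σ k, Γ k) ∈ A} d).image
      (List.map Subtype.val)).subset ?_
    rintro l ⟨hl, hl'⟩
    refine ⟨l.attachWith _ hl', ?_, List.attachWith_map_subtype_val hl'⟩
    exact (List.length_attachWith (H := hl')).trans_le hl
  have h2 := (Set.finite_univ (α := Option Λ × σ)).prod (Set.Finite.pi' h1)
  refine (h2.image (fun p => (⟨p.1.1, p.1.2, p.2⟩ : TM2.Cfg Γ Λ σ))).subset ?_
  rintro ⟨l, v, S⟩ ⟨h, h'⟩
  exact ⟨((l, v), S), ⟨trivial, fun k => ⟨h k, h' k⟩⟩, rfl⟩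

end Pool.Agent.MP_2e8011_lc
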