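import Pool.Agent.MP_2e8011_lc.Reduction

/-! Membership in NP. -/

namespace Pool.Agent.MP_2e8011_lc

open SimpleGraph

/-- A matrix written row by row. -/
def mat (k n : ℕ) (f : ℕ → ℕ → Bool) : List Bool :=
  (List.range k).flatMap fun a => (List.range n).map (f a)

theorem length_mat (k n : ℕ) (f : ℕ → ℕ → Bool) : (mat k n f).length = k * n := by
  induction k with
  | zero => simp [mat]
  | succ k ih =>
    simp only [mat] at ih
    simp [mat, List.range_succ, List.flatMap_append, ih, Nat.succ_mul]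

theorem getD_mat (k n : ℕ) (f : ℕ → ℕ → Bool) {a b : ℕ} (ha : a < k) (hb : b < n) :
    (mat k n f).getD (a * n + b) false = f a b := by
  induction k with
  | zero => omega
  | succ k ih =>
    have e : mat (k + 1) n f = mat k n f ++ (List.range n).map (f k) := by
      simp [mat, List.range_succ, List.flatMap_append]
    rw [e]
    by_cases h : a < k
    · rw [List.getD_append _ _ _ _ (by rw [length_mat]; nlinarith), ih h]
    · obtain rfl : a = k := by omega
      rw [List.getD_append_right _ _ _ _ (by rw [length_mat]; omega), length_mat]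
      simp [hb]

theorem eq_mat {x : List Bool} {n : ℕ} (h : n * n = x.length) :
    x = mat n n (fun a b => x.getD (a * n + b) false) := by
  refine List.ext_getElem (by rw [length_mat, h]) (fun i hi hi' => ?_)
  have hn : 0 < n := by
    rcases Nat.eq_zero_or_pos n with rfl | hn
    · omega
    · exact hn
  have e : i / n * n + i % n = i := Nat.div_add_mod' i n
  have := getD_mat n n (fun a b => x.getD (a * n + b) false)
    (a := i / n) (b := i % n) (Nat.div_lt_of_lt_mul (by omega)) (Nat.mod_lt _ hn)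
  rw [e, List.getD_eq_getElem _ _ hi', List.getD_eq_getElem _ _ hi] at this
  exact this.symm

/-- All lists of length `k` of numbers below `n`. -/
def tuples : ℕ → ℕ → List (List ℕ)
  | 0, _ => [[]]
  | k + 1, n => (tuples k n).flatMap fun l => (List.range n).map fun a => a :: l

theorem mem_tuples {k n : ℕ} {l : List ℕ} : l ∈ tuples k n ↔ l.length = k ∧ ∀ a ∈ l, a < n := by
  induction k generalizing l with
  | zero => simp only [tuples, List.mem_singleton, List.length_eq_zero_iff]; grind
  | succ k ih =>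
    simp only [tuples, List.mem_flatMap, List.mem_map, List.mem_range, ih]
    constructor
    · rintro ⟨m, ⟨h1, h2⟩, a, ha, rfl⟩
      exact ⟨by simp [h1], by simpa using ⟨ha, h2⟩⟩
    · rintro ⟨h1, h2⟩
      cases l with
      | nil => simp at h1
      | cons a m =>
        simp only [List.mem_cons, forall_eq_or_imp] at h2
        exact ⟨m, ⟨by simpa using h1, h2.2⟩, a, h2.1, rfl⟩

@[fun_prop] theorem pt_tuples {α : Type} [Enc α] (k : ℕ) {n : α → ℕ} (hn : PT n) :
    PT (fun a => tuples k (n a)) := by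
  induction k with
  | zero => exact PT.const _
  | succ k ih => unfold tuples; fun_prop

@[fun_prop] theorem PT.exists_mem {α β : Type} [Enc α] [Enc β] [Inhabited β] {l : α → List β}
    {p : α → β → Prop} {i : ∀ a, Decidable (∃ x ∈ l a, p a x)} [∀ a x, Decidable (p a x)]
    (hl : PT l) (hp : PT (fun q : α × β => decide (p q.1 q.2))) :
    PT (fun a => @decide (∃ x ∈ l a, p a x) (i a)) :=
  (PT.any (f := fun a x => decide (p a x)) hl hp).congr (fun a => by
    rw [Bool.eq_iff_iff]; simp)

/-- The defining relation of the tree, on numbers. -/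
def relH (j a b : ℕ) : Prop :=
  (b = a + 1 ∧ b ≤ j) ∨ (a = 0 ∧ (b = j + 1 ∨ b = j + 2)) ∨ (a = j ∧ (b = j + 3 ∨ b = j + 4))

/-- The `i`-th vertex of the cycle written in the witness. -/
def posW (w : List Bool) (n i : ℕ) : ℕ :=
  ((List.range n).filter (fun v => w.getD (i * n + v) false)).length

/-- The test made by the verifier. -/
def check (j : ℕ) (x w : List Bool) (n : ℕ) : Prop :=
  n * n = x.length ∧
  (∀ a < n, ∀ b < n, x.getD (a * n + b) false = x.getD (b * n + a) false) ∧
  (∀ a < n, x.getD (a * n + a) false = false) ∧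
  (¬ ∃ l ∈ tuples (j + 5) n, (∀ s < j + 5, ∀ t < j + 5, l.getD s 0 = l.getD t 0 → s = t) ∧
    ∀ s < j + 5, ∀ t < j + 5, relH j s t → x.getD (l.getD s 0 * n + l.getD t 0) false = true) ∧
  3 ≤ n ∧ (∀ i < n, posW w n i < n) ∧ (∀ i < n, ∀ k < n, posW w n i = posW w n k → i = k) ∧
  ∀ i < n, x.getD (posW w n i * n + posW w n ((i + 1) % n)) false = true

@[fun_prop] theorem pt_posW {α : Type} [Enc α] {w : α → List Bool} {n i : α → ℕ} (hw : PT w)
    (hn : PT n) (hi : PT i) : PT (fun a => posW (w a) (n a) (i a)) := by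
  unfold posW
  fun_prop

open Classical in
theorem pt_check (j : ℕ) :
    PT (fun p : List Bool × List Bool => decide (∃ n < p.1.length + 1, check j p.1 p.2 n)) := by
  refine PT.exists_lt (by fun_prop) ?_
  unfold check
  refine PT.decide_and (by fun_prop) (PT.decide_and ?_ (PT.decide_and ?_ (PT.decide_and
    (PT.decide_not (PT.exists_mem (by fun_prop) (PT.decide_and ?_ ?_)))
    (PT.decide_and (by fun_prop) (PT.decide_and ?_ (PT.decide_and ?_ ?_))))))
  · exact PT.forall_lt (by fun_prop) (PT.forall_lt (by fun_prop) (by fun_prop))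
  · exact PT.forall_lt (by fun_prop) (by fun_prop)
  · exact PT.forall_lt (by fun_prop) (PT.forall_lt (by fun_prop)
      (PT.decide_imp (by fun_prop) (by fun_prop)))
  · refine PT.forall_lt (by fun_prop) (PT.forall_lt (by fun_prop)
      (PT.decide_imp ?_ (by fun_prop)))
    unfold relH
    fun_prop
  · exact PT.forall_lt (by fun_prop) (by fun_prop)
  · exact PT.forall_lt (by fun_prop) (PT.forall_lt (by fun_prop)
      (PT.decide_imp (by fun_prop) (by fun_prop)))
  · exact PT.forall_lt (by fun_prop) (by fun_prop)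

theorem adjacencyBits_mat {n : ℕ} (G : SimpleGraph (Fin n)) (f : ℕ → ℕ → Bool)
    (h : ∀ a b, G.Adj a b ↔ f a.val b.val = true) : adjacencyBits G = mat n n f := by
  rw [adjacencyBits_eq G (fun a b => f a b = true) h]
  simp [mat]

theorem free_iff {j n : ℕ} (hj : 1 ≤ j) (G : SimpleGraph (Fin n)) (P : ℕ → ℕ → Prop)
    (h : ∀ a b, G.Adj a b ↔ P a.val b.val) : (treeH j).Free G ↔
    ¬ ∃ l ∈ tuples (j + 5) n, (∀ s < j + 5, ∀ t < j + 5, l.getD s 0 = l.getD t 0 → s = t) ∧
      ∀ s < j + 5, ∀ t < j + 5, relH j s t → P (l.getD s 0) (l.getD t 0) := by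
  refine not_congr ⟨?_, ?_⟩
  · rintro ⟨φ⟩
    have e : ∀ s (hs : s < j + 5), (List.ofFn fun i => (φ i).val).getD s 0 = (φ ⟨s, hs⟩).val := by
      intro s hs
      rw [List.getD_eq_getElem _ _ (by rw [List.length_ofFn]; exact hs), List.getElem_ofFn]
    refine ⟨List.ofFn fun i => (φ i).val, mem_tuples.2 ⟨by simp, ?_⟩, fun s hs t ht hst => ?_,
      fun s hs t ht hst => ?_⟩
    · intro a ha
      obtain ⟨i, rfl⟩ := List.mem_ofFn.1 ha
      exact (φ i).2
    · rw [e s hs, e t ht] at hst
      simpa using φ.injective (Fin.ext hst)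
    · rw [e s hs, e t ht, ← h]
      refine φ.toHom.map_adj ?_
      simp only [treeH, fromRel_adj, ne_eq, Fin.mk.injEq]
      unfold relH at hst
      omega
  · rintro ⟨l, hl, h1, h2⟩
    obtain ⟨hlen, hlt⟩ := mem_tuples.1 hl
    have hb : ∀ s : Fin (j + 5), l.getD s 0 < n := fun s => by
      rw [List.getD_eq_getElem _ _ (by rw [hlen]; exact s.2)]
      exact hlt _ (List.getElem_mem _)
    refine ⟨⟨⟨fun s => ⟨l.getD s 0, hb s⟩, fun {s t} hst => ?_⟩, fun s t hst => ?_⟩⟩
    · simp only [treeH, fromRel_adj] at hst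
      rcases hst.2 with h' | h'
      · exact (h _ _).2 (h2 s s.2 t t.2 h')
      · exact ((h _ _).2 (h2 t t.2 s s.2 h')).symm
    · exact Fin.ext (h1 s s.2 t t.2 (congrArg Fin.val hst))

theorem posW_mat {n : ℕ} (f : ℕ → ℕ) {i : ℕ} (hi : i < n) (hf : f i ≤ n) :
    posW (mat n n (fun a b => decide (b < f a))) n i = f i := by
  unfold posW
  rw [List.filter_congr (q := fun v => decide (v < f i))
    (fun v hv => getD_mat n n _ hi (List.mem_range.1 hv))]
  obtain ⟨r, hr⟩ := Nat.exists_eq_add_of_le hf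
  rw [hr, List.range_add, List.filter_append, List.filter_eq_self.2, List.filter_eq_nil_iff.2]
  · simp
  · simp
  · simp

theorem member {j : ℕ} (hj : 1 ≤ j) : hamiltonianFreeLanguage j ∈ N68a2faeb.NP := by
  classical
  refine mem_NP_of_PT Polynomial.X _ (pt_check j) (fun x => ?_)
  simp only [hamiltonianFreeLanguage, decide_eq_true_eq, Polynomial.eval_X]
  constructor
  · rintro ⟨n, G, rfl, hfree, hham⟩
    let P : ℕ → ℕ → Prop := fun a b => ∃ (ha : a < n) (hb : b < n), G.Adj ⟨a, ha⟩ ⟨b, hb⟩
    have hP : ∀ a b, G.Adj a b ↔ P a.val b.val := fun a b => by simp [P]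
    have hx : adjacencyBits G = mat n n (fun a b => decide (P a b)) :=
      adjacencyBits_mat G _ (fun a b => by rw [decide_eq_true_eq, hP])
    have hg : ∀ a < n, ∀ b < n, (adjacencyBits G).getD (a * n + b) false = decide (P a b) :=
      fun a ha b hb => by rw [hx, getD_mat n n _ ha hb]
    obtain ⟨h3, f, hf, hadj⟩ := hasHam_iff_seq.1 hham
    simp only [Fintype.card_fin] at h3 hf hadj
    have hw := fun i hi => posW_mat (n := n) (fun i => (f i).val) (i := i) hi (f i).2.le
    have hlen : (adjacencyBits G).length = n * n := by rw [hx, length_mat]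
    refine ⟨mat n n (fun a b => decide (b < (f a).val)), by rw [length_mat, hlen], n,
      by rw [hlen]; nlinarith, hlen.symm, fun a ha b hb => ?_, fun a ha => ?_, ?_, h3,
      fun i hi => ?_, fun i hi k hk h => ?_, fun i hi => ?_⟩
    · rw [hg a ha b hb, hg b hb a ha]
      simp [P, ha, hb, G.adj_comm]
    · rw [hg a ha a ha]
      simp [P]
    · refine (free_iff hj G (fun a b => (adjacencyBits G).getD (a * n + b) false = true)
        (fun a b => ?_)).1 hfree
      rw [hg _ a.2 _ b.2, decide_eq_true_eq, hP]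
    · rw [hw i hi]
      exact (f i).2
    · rw [hw i hi, hw k hk] at h
      exact hf i hi k hk (Fin.ext h)
    · rw [hw i hi, hw _ (Nat.mod_lt _ (by omega)), hg _ (f _).2 _ (f _).2, decide_eq_true_eq, ← hP]
      exact hadj i hi
  · rintro ⟨w, -, n, -, hlen, hsym, hirr, hfree, h3, hlt, hinj, hadj⟩
    let G : SimpleGraph (Fin n) :=
      { Adj := fun a b => x.getD (a.val * n + b.val) false = true
        symm := ⟨fun a b h => by rw [← hsym _ a.2 _ b.2]; exact h⟩
        loopless := ⟨fun a h => by rw [hirr _ a.2] at h; cases h⟩ }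
    refine ⟨n, G, ?_, (free_iff hj G (fun a b => x.getD (a * n + b) false = true)
      (fun a b => Iff.rfl)).2 hfree, hasHam_iff_seq.2 ⟨by simpa using h3,
      fun i => ⟨posW w n (i % n), hlt _ (Nat.mod_lt _ (by omega))⟩, ?_, ?_⟩⟩
    · rw [adjacencyBits_mat G (fun a b => x.getD (a * n + b) false) (fun a b => Iff.rfl)]
      exact eq_mat hlen
    · intro i hi k hk h
      simp only [Fintype.card_fin] at hi hk
      simp only [Fin.mk.injEq, Nat.mod_eq_of_lt hi, Nat.mod_eq_of_lt hk] at h
      exact hinj i hi k hk h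
    · intro i hi
      simp only [Fintype.card_fin] at hi ⊢
      have := hadj i hi
      simpa only [G, Nat.mod_eq_of_lt hi, Nat.mod_mod] using this

theorem adjacencyBits_inj {n m : ℕ} {G : SimpleGraph (Fin n)} {H : SimpleGraph (Fin m)}
    (h : adjacencyBits G = adjacencyBits H) : Nonempty (G ≃g H) := by
  classical
  let P : ℕ → ℕ → Prop := fun a b => ∃ (ha : a < n) (hb : b < n), G.Adj ⟨a, ha⟩ ⟨b, hb⟩
  let Q : ℕ → ℕ → Prop := fun a b => ∃ (ha : a < m) (hb : b < m), H.Adj ⟨a, ha⟩ ⟨b, hb⟩
  have hx : adjacencyBits G = mat n n (fun a b => decide (P a b)) :=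
    adjacencyBits_mat G _ (fun a b => by simp [P])
  have hy : adjacencyBits H = mat m m (fun a b => decide (Q a b)) :=
    adjacencyBits_mat H _ (fun a b => by simp [Q])
  rw [hx, hy] at h
  have hl := congrArg List.length h
  rw [length_mat, length_mat] at hl
  obtain rfl : n = m := Nat.mul_self_inj.1 hl
  refine ⟨⟨Equiv.refl _, fun {a b} => ?_⟩⟩
  have := getD_mat n n (fun a b => decide (P a b)) a.2 b.2
  rw [h, getD_mat n n _ a.2 b.2] at this
  simpa [P, Q] using this

theorem complete {j : ℕ} (hj : 12 ≤ j) :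
    N793a5b8e.IsCompleteFor N68a2faeb.NP (hamiltonianFreeLanguage j) := by
  classical
  refine ⟨member (by omega), fun L hL => ?_⟩
  obtain ⟨f, hf, h⟩ := hardness hj hL
  refine ⟨f, hf, fun x => ?_⟩
  obtain ⟨n, G, h1, h2, h3⟩ := h x
  rw [Bool.eq_iff_iff, h3]
  simp only [hamiltonianFreeLanguage, decide_eq_true_eq]
  constructor
  · intro hG
    exact ⟨n, G, h1, h2, hG⟩
  · rintro ⟨m, H, e, -, hH⟩
    obtain ⟨φ⟩ := adjacencyBits_inj (h1.symm.trans e)
    exact (hasHam_congr φ).2 hH

end Pool.Agent.MP_2e8011_lc
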