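import Pool.Agent.MP_2e8011_lc.Gadget2
import Pool.Agent.MP_2e8011_lc.CookLevin

/-! The reduction from satisfiability to Hamiltonicity of graphs without a subgraph `H_j`. -/

namespace Pool.Agent.MP_2e8011_lc

open SimpleGraph

/-- The literal `(v, b)` satisfies column `c`. -/
def lit (φ : CNF) (c v : ℕ) (b : Bool) : Prop := φ.length ≤ c ∨ (v, b) ∈ φ.getD c []

/-- The spine order on cells. -/
def nxE (n m : ℕ) : Fin (n + 1) × Fin (m + 1) ≃ Fin (n + 1) × Fin (m + 1) where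
  toFun x := (if x.2 + 1 = 0 then x.1 + 1 else x.1, x.2 + 1)
  invFun x := (if x.2 = 0 then x.1 - 1 else x.1, x.2 - 1)
  left_inv x := by
    by_cases h : x.2 + 1 = 0
    · simp only [h, if_true, add_sub_cancel_right]
      rw [← h, add_sub_cancel_right]
    · simp [h]
  right_inv x := by
    by_cases h : x.2 = 0 <;> simp [h]
    rw [← h]

/-- The grid of a formula. -/
def grid (φ : CNF) : Grid (Fin (sz φ + 1) × Fin (φ.length + 1)) where
  nx := nxE _ _
  rt := Equiv.prodCongr (Equiv.refl _) (Equiv.addRight 1)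
  dn := Equiv.prodCongr (Equiv.addRight 1) (Equiv.refl _)
  top x := x.1.val = 0
  pos x := lit φ x.2.val x.1.val true
  neg x := lit φ x.2.val x.1.val false

theorem val_add_one' {n : ℕ} (a : Fin (n + 1)) : (a + 1).val = (a.val + 1) % (n + 1) := by
  rw [Fin.val_add]
  simp

theorem nxE_reach (n m : ℕ) (x : Fin (n + 1) × Fin (m + 1)) :
    ∃ k, (nxE n m)^[k] (0, 0) = x := by
  have row : ∀ (v : Fin (n + 1)), (∃ k, (nxE n m)^[k] (0, 0) = (v, 0)) →
      ∀ (c : ℕ) (hc : c < m + 1), ∃ k, (nxE n m)^[k] (0, 0) = (v, ⟨c, hc⟩) := by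
    intro v hv c
    induction c with
    | zero => intro _; exact hv
    | succ c ih =>
      intro hc
      obtain ⟨k, hk⟩ := ih (by omega)
      refine ⟨k + 1, ?_⟩
      rw [Function.iterate_succ_apply', hk]
      have : (⟨c, by omega⟩ : Fin (m + 1)) + 1 = ⟨c + 1, hc⟩ := by
        ext; rw [val_add_one']; exact Nat.mod_eq_of_lt hc
      simp [nxE, this]
  have col : ∀ (v : ℕ) (hv : v < n + 1), ∃ k, (nxE n m)^[k] (0, 0) = (⟨v, hv⟩, 0) := by
    intro v
    induction v with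
    | zero => intro _; exact ⟨0, rfl⟩
    | succ v ih =>
      intro hv
      obtain ⟨k, hk⟩ := row _ (ih (by omega)) m (by omega)
      refine ⟨k + 1, ?_⟩
      rw [Function.iterate_succ_apply', hk]
      have e1 : (⟨v, by omega⟩ : Fin (n + 1)) + 1 = ⟨v + 1, hv⟩ := by
        ext; rw [val_add_one']; exact Nat.mod_eq_of_lt hv
      have e2 : (⟨m, by omega⟩ : Fin (m + 1)) + 1 = 0 := by
        ext; rw [val_add_one']; simp
      simp [nxE, e1, e2]
  exact row x.1 (col x.1.val x.1.2) x.2.val x.2.2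

theorem var_lt {φ : CNF} {c : List (ℕ × Bool)} (hc : c ∈ φ) {l : ℕ × Bool} (hl : l ∈ c) :
    l.1 < sz φ + 1 := by
  have h1 := sz_le_of_mem hc
  have h2 := sz_le_of_mem hl
  obtain ⟨v, b⟩ := l
  simp only [sz_prod, sz_nat] at h2
  simp only
  omega

theorem ham_of_sat {φ : CNF} {j : ℕ} (hj : 1 ≤ j) (h : Sat φ) :
    HasHamiltonianCycle (subdiv (grid φ).D j) := by
  obtain ⟨a, ha⟩ := h
  have hw : ∀ c : ℕ, ∃ v, v < sz φ + 1 ∧ lit φ c v (a v) := by
    intro c
    by_cases hc : φ.length ≤ c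
    · exact ⟨0, by omega, Or.inl hc⟩
    · have hm : φ[c]'(by omega) ∈ φ := List.getElem_mem _
      obtain ⟨l, hl, hl'⟩ := ha _ hm
      refine ⟨l.1, var_lt hm hl, Or.inr ?_⟩
      rw [hl', List.getD_eq_getElem _ _ (by omega)]
      exact hl
  choose w hw hw' using hw
  obtain ⟨σ, h1, h2, h3⟩ := (grid φ).complete (val := fun x => a x.1.val = true)
    (zz := fun x => x.1.val = w x.2.val) (dd := fun x => x.1.val < w x.2.val)
    (fun x => Iff.rfl) (fun x hx => by
      have := hw' x.2.val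
      rw [← hx] at this
      cases hb : a x.1.val
      · rw [hb] at this; exact Or.inr ⟨by simp, this⟩
      · rw [hb] at this; exact Or.inl ⟨rfl, this⟩)
    (fun x hx => by
      have h1 := hw x.2.val
      have h2 := x.1.2
      change (x.1 + 1).val = 0 at hx
      change ¬ x.1.val < w x.2.val ∧ ((x.1 + 1).val = w x.2.val ↔ ¬ (x.1 + 1).val < w x.2.val)
      rw [hx]
      rw [val_add_one'] at hx
      by_cases h : x.1.val + 1 < sz φ + 1
      · rw [Nat.mod_eq_of_lt h] at hx; omega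
      · omega)
    (fun x hx => by
      have h2 := x.1.2
      change ¬ (x.1 + 1).val = 0 at hx
      change (x.1.val < w x.2.val → ((x.1 + 1).val = w x.2.val ↔ ¬ (x.1 + 1).val < w x.2.val)) ∧
        (¬ x.1.val < w x.2.val → ¬ (x.1 + 1).val = w x.2.val ∧ ¬ (x.1 + 1).val < w x.2.val)
      rw [val_add_one'] at hx ⊢
      by_cases h : x.1.val + 1 < sz φ + 1
      · rw [Nat.mod_eq_of_lt h]; omega
      · rw [show x.1.val + 1 = sz φ + 1 by omega, Nat.mod_self] at hx
        exact absurd rfl hx)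
    (0, 0) (nxE_reach _ _)
  exact subdiv_ham_of_succ hj σ h1 _ h2 h3

theorem sat_of_ham {φ : CNF} {j : ℕ} (hj : 1 ≤ j) (h : HasHamiltonianCycle (subdiv (grid φ).D j)) :
    Sat φ := by
  classical
  obtain ⟨σ, h1, h2, h3⟩ := succ_of_subdiv_ham hj (by
    simp only [Fintype.card_prod, Fintype.card_fin]
    nlinarith [Nat.zero_le (sz φ), Nat.zero_le φ.length, Nat.zero_le (sz φ * φ.length)]) h
  obtain ⟨val, zz, dd, s1, s2, s3, s4⟩ := (grid φ).sound h1 h2 h3
  have hval : ∀ v (c : ℕ) (hc : c < φ.length + 1), val (v, ⟨c, hc⟩) ↔ val (v, 0) := by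
    intro v c
    induction c with
    | zero => intro _; rfl
    | succ c ih =>
      intro hc
      rw [← ih (by omega), ← s1 (v, ⟨c, by omega⟩)]
      have : (⟨c, by omega⟩ : Fin (φ.length + 1)) + 1 = ⟨c + 1, hc⟩ := by
        ext; rw [val_add_one']; exact Nat.mod_eq_of_lt hc
      simp [grid, this]
  have hz : ∀ c, ∃ v, zz (v, c) := by
    intro c
    by_contra hno
    push Not at hno
    have e0 : (grid φ).dn (Fin.last _, c) = (0, c) := by simp [grid]
    have h0 := s4 (Fin.last _, c) (by rw [e0]; rfl)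
    rw [e0] at h0
    have hd : ∀ (v : ℕ) (hv : v < sz φ + 1), dd (⟨v, hv⟩, c) := by
      intro v
      induction v with
      | zero => intro _; exact h0.2.resolve_left (hno _)
      | succ v ih =>
        intro hv
        have e1 : (⟨v, by omega⟩ : Fin (sz φ + 1)) + 1 = ⟨v + 1, hv⟩ := by
          ext; rw [val_add_one']; exact Nat.mod_eq_of_lt hv
        have e : (grid φ).dn (⟨v, by omega⟩, c) = (⟨v + 1, hv⟩, c) := by simp [grid, e1]
        have := s3 (⟨v, by omega⟩, c) (by rw [e]; simp [grid]) (ih (by omega))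
        rw [e] at this
        exact this.resolve_left (hno _)
    exact h0.1 (hd _ _)
  refine ⟨fun v => if h : v < sz φ + 1 then decide (val (⟨v, h⟩, 0)) else false, fun cl hcl => ?_⟩
  obtain ⟨c, hc, rfl⟩ := List.getElem_of_mem hcl
  obtain ⟨v, hv⟩ := hz ⟨c, by omega⟩
  have hg : φ.getD c [] = φ[c] := List.getD_eq_getElem _ _ hc
  rcases s2 _ hv with ⟨e1, e2 | e2⟩ | ⟨e1, e2 | e2⟩
  · exact absurd hc (not_lt.2 e2)
  · rw [hg] at e2
    refine ⟨_, e2, ?_⟩
    simpa [v.2] using (hval v c _).1 e1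
  · exact absurd hc (not_lt.2 e2)
  · rw [hg] at e2
    refine ⟨_, e2, ?_⟩
    simpa [v.2] using fun h => e1 ((hval v c _).2 h)

/-- The arc relation for arbitrary neighbour functions. -/
def arcG {X : Type} (nx rt dn : X → X) (top pos neg : X → Prop) (x : X) (r : ℕ) (y : X) (t : ℕ) :
    Prop :=
  (y = x ∧ (loc r t ∨ (r = 5 ∧ t = 1 ∧ pos x) ∨ (r = 1 ∧ (t = 9 ∨ t = 10) ∧ ¬ top x))) ∨
  (x = rt y ∧ r = 0 ∧ t = 5) ∨
  (y = rt x ∧ r = 2 ∧ (t = 6 ∨ (t = 1 ∧ neg y))) ∨
  (x = dn y ∧ r = 1 ∧ t = 13) ∨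
  (y = dn x ∧ r = 10 ∧ (t = 9 ∨ t = 10) ∧ top y) ∨
  (y = nx (dn x) ∧ r = 10 ∧ t = 0 ∧ ¬ top (dn x)) ∨
  (y = nx x ∧ (r = 6 ∨ r = 13) ∧ t = 0)

/-- The arc relation on numbers. -/
def arcN (φ : CNF) (x : ℕ × ℕ) (r : ℕ) (y : ℕ × ℕ) (t : ℕ) : Prop :=
  arcG (fun x : ℕ × ℕ => (if (x.2 + 1) % (φ.length + 1) = 0 then (x.1 + 1) % (sz φ + 1) else x.1,
      (x.2 + 1) % (φ.length + 1)))
    (fun x => (x.1, (x.2 + 1) % (φ.length + 1))) (fun x => ((x.1 + 1) % (sz φ + 1), x.2))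
    (fun x => x.1 = 0) (fun x => lit φ x.2 x.1 true) (fun x => lit φ x.2 x.1 false) x r y t

theorem arc_iff (φ : CNF) (x y : Fin (sz φ + 1) × Fin (φ.length + 1)) (r t : ℕ) :
    (grid φ).arc x r y t ↔ arcN φ (x.1.val, x.2.val) r (y.1.val, y.2.val) t := by
  obtain ⟨v, c⟩ := x
  obtain ⟨v', c'⟩ := y
  simp only [Grid.arc, arcN, arcG, grid, nxE, Equiv.prodCongr_apply, Equiv.coe_refl,
    Equiv.coe_addRight, Prod.map, id, Equiv.coe_fn_mk, Prod.mk.injEq, Fin.ext_iff, val_add_one',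
    apply_ite Fin.val, Fin.val_zero]

/-- Number of vertices. -/
def nV (φ : CNF) (j : ℕ) : ℕ := (sz φ + 1) * (φ.length + 1) * 14 * (j + 2)

/-- Numbering of the vertices. -/
def num (φ : CNF) (j : ℕ) :
    Fin (nV φ j) ≃ ((Fin (sz φ + 1) × Fin (φ.length + 1)) × Fin 14) × Fin (j + 2) :=
  finProdFinEquiv.symm.trans (Equiv.prodCongr (finProdFinEquiv.symm.trans
    (Equiv.prodCongr finProdFinEquiv.symm (Equiv.refl _))) (Equiv.refl _))

/-- The graph of a formula. -/
def graphOf (φ : CNF) (j : ℕ) : SimpleGraph (Fin (nV φ j)) :=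
  (subdiv (grid φ).D j).comap (num φ j).toEmbedding

/-- The arc relation on vertex numbers of the digraph. -/
def arcQ (φ : CNF) (p q : ℕ) : Prop :=
  arcN φ (p / 14 / (φ.length + 1), p / 14 % (φ.length + 1)) (p % 14)
    (q / 14 / (φ.length + 1), q / 14 % (φ.length + 1)) (q % 14)

/-- Adjacency on vertex numbers. -/
def adjN (φ : CNF) (j a b : ℕ) : Prop :=
  (a / (j + 2) = b / (j + 2) ∧ b % (j + 2) = a % (j + 2) + 1) ∨
  (a / (j + 2) = b / (j + 2) ∧ a % (j + 2) = b % (j + 2) + 1) ∨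
  (a % (j + 2) = j + 1 ∧ b % (j + 2) = 0 ∧ arcQ φ (a / (j + 2)) (b / (j + 2))) ∨
  (b % (j + 2) = j + 1 ∧ a % (j + 2) = 0 ∧ arcQ φ (b / (j + 2)) (a / (j + 2)))

theorem graphOf_adj (φ : CNF) (j : ℕ) (a b : Fin (nV φ j)) :
    (graphOf φ j).Adj a b ↔ adjN φ j a.val b.val := by
  have h1 : ∀ a b : Fin (nV φ j), (num φ j a).1 = (num φ j b).1 ↔ a.val / (j + 2) = b.val / (j + 2) := by
    intro a b
    exact ((finProdFinEquiv.symm.trans (Equiv.prodCongr finProdFinEquiv.symm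
      (Equiv.refl (Fin 14)))).apply_eq_iff_eq (x := Fin.divNat a) (y := Fin.divNat b)).trans
      Fin.ext_iff
  simp only [graphOf, comap_adj, Equiv.coe_toEmbedding, subdiv_adj, h1, Grid.D, arc_iff]
  rfl

open Classical in
theorem adjacencyBits_eq {n : ℕ} (G : SimpleGraph (Fin n)) (P : ℕ → ℕ → Prop)
    (h : ∀ a b, G.Adj a b ↔ P a.val b.val) : adjacencyBits G =
      (List.range n).flatMap fun a => (List.range n).map fun b => decide (P a b) := by
  rw [← List.map_coe_finRange_eq_range, List.flatMap_map]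
  simp only [adjacencyBits, List.map_map, h]
  rfl

open Classical in
theorem pt_graphOf (j : ℕ) : PT (fun φ : CNF => adjacencyBits (graphOf φ j)) := by
  simp only [adjacencyBits_eq _ _ (graphOf_adj _ j)]
  unfold adjN arcQ arcN arcG loc lit nV
  fun_prop

theorem graphOf_free (φ : CNF) {j : ℕ} (hj : 12 ≤ j) : (treeH j).Free (graphOf φ j) :=
  (free_congr_right (Iso.comap (num φ j) _)).2 ((grid φ).free hj)

theorem graphOf_ham (φ : CNF) {j : ℕ} (hj : 1 ≤ j) : Sat φ ↔ HasHamiltonianCycle (graphOf φ j) :=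
  (Iff.intro (ham_of_sat hj) (sat_of_ham hj)).trans (hasHam_congr (Iso.comap (num φ j) _)).symm

theorem hardness {j : ℕ} (hj : 12 ≤ j) {L : List Bool → Bool} (hL : L ∈ N68a2faeb.NP) :
    ∃ f : List Bool → List Bool, N68a2faeb.IsPolyTime f ∧ ∀ x, ∃ (n : ℕ) (G : SimpleGraph (Fin n)),
      f x = adjacencyBits G ∧ (treeH j).Free G ∧ (L x ↔ HasHamiltonianCycle G) := by
  obtain ⟨f, hf, h⟩ := cookLevin hL
  exact ⟨fun x => adjacencyBits (graphOf (f x) j), ((pt_graphOf j).comp hf).isPolyTime_bits,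
    fun x => ⟨_, _, rfl, graphOf_free _ hj, (h x).trans (graphOf_ham _ (by omega))⟩⟩

end Pool.Agent.MP_2e8011_lc
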