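import Pool.Agent.MP_2e8011_lc.HamCore

/-! Replacing every vertex of a digraph by a long path. -/

namespace Pool.Agent.MP_2e8011_lc

open SimpleGraph

variable {V : Type}

/-- Each vertex `v` of the digraph `D` becomes the path `(v,0), …, (v,j+1)`, each arc `u → w`
the edge from `(u,j+1)` to `(w,0)`. -/
def subdiv (D : V → V → Prop) (j : ℕ) : SimpleGraph (V × Fin (j + 2)) :=
  SimpleGraph.fromRel fun a b =>
    (a.1 = b.1 ∧ b.2.val = a.2.val + 1) ∨ (a.2.val = j + 1 ∧ b.2.val = 0 ∧ D a.1 b.1)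

theorem subdiv_adj {D : V → V → Prop} {j : ℕ} {a b : V × Fin (j + 2)} :
    (subdiv D j).Adj a b ↔ (a.1 = b.1 ∧ b.2.val = a.2.val + 1) ∨
      (a.1 = b.1 ∧ a.2.val = b.2.val + 1) ∨ (a.2.val = j + 1 ∧ b.2.val = 0 ∧ D a.1 b.1) ∨
      (b.2.val = j + 1 ∧ a.2.val = 0 ∧ D b.1 a.1) := by
  simp only [subdiv, fromRel_adj, ne_eq]
  constructor
  · rintro ⟨-, (h | h) | (h | h)⟩
    · exact Or.inl h
    · exact Or.inr (Or.inr (Or.inl h))
    · exact Or.inr (Or.inl ⟨h.1.symm, h.2⟩)
    · exact Or.inr (Or.inr (Or.inr h))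
  · intro h
    refine ⟨?_, ?_⟩
    · rintro rfl
      omega
    · rcases h with h | h | h | h
      · exact Or.inl (Or.inl h)
      · exact Or.inr (Or.inl ⟨h.1.symm, h.2⟩)
      · exact Or.inl (Or.inr h)
      · exact Or.inr (Or.inr h)

variable [DecidableEq V] [Fintype V]

theorem subdiv_ham_of_succ {D : V → V → Prop} {j : ℕ} (hj : 1 ≤ j) (σ : V → V)
    (hD : ∀ v, D v (σ v)) (s : V) (hreach : ∀ v, ∃ n, σ^[n] s = v)
    (hper : ∃ n, 0 < n ∧ σ^[n] s = s) : HasHamiltonianCycle (subdiv D j) := by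
  let f : V × Fin (j + 2) → V × Fin (j + 2) := fun a =>
    if h : a.2.val < j + 1 then (a.1, ⟨a.2.val + 1, by omega⟩) else (σ a.1, 0)
  have h1 : ∀ v (i : ℕ) (hi : i < j + 2), f^[i] (v, 0) = (v, ⟨i, hi⟩) := by
    intro v i
    induction i with
    | zero => intro _; rfl
    | succ i ih =>
      intro hi
      rw [Function.iterate_succ_apply', ih (by omega)]
      simp only [f]
      rw [dif_pos (by omega)]
  have h2 : ∀ v, f^[j + 2] (v, 0) = (σ v, 0) := by
    intro v
    rw [Function.iterate_succ_apply', h1 v (j + 1) (by omega)]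
    simp [f]
  have h3 : ∀ n v, f^[(j + 2) * n] (v, 0) = (σ^[n] v, 0) := by
    intro n
    induction n with
    | zero => intro v; rfl
    | succ n ih =>
      intro v
      rw [Nat.mul_succ, Function.iterate_add_apply, h2, ih, Function.iterate_succ_apply]
  have : Nonempty V := ⟨s⟩
  refine hasHam_of_succ ?_ f (fun a => ?_) (s, 0) (fun a => ?_) ?_
  · have := Fintype.card_pos (α := V)
    simp only [Fintype.card_prod, Fintype.card_fin]
    nlinarith
  · rw [subdiv_adj]
    by_cases h : a.2.val < j + 1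
    · simp only [f, dif_pos h]
      exact Or.inl ⟨trivial, trivial⟩
    · have := a.2.2
      simp only [f, dif_neg h]
      exact Or.inr (Or.inr (Or.inl ⟨by omega, rfl, hD _⟩))
  · obtain ⟨n, hn⟩ := hreach a.1
    refine ⟨a.2.val + (j + 2) * n, ?_⟩
    rw [Function.iterate_add_apply, h3, hn, h1 _ _ a.2.2]
  · obtain ⟨n, hn, hs⟩ := hper
    exact ⟨(j + 2) * n, by positivity, by rw [h3, hs]⟩

theorem succ_of_subdiv_ham {D : V → V → Prop} {j : ℕ} (hj : 1 ≤ j) (hV : 3 ≤ Fintype.card V)
    (h : HasHamiltonianCycle (subdiv D j)) :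
    ∃ σ : V → V, (∀ v, D v (σ v)) ∧ Function.Injective σ ∧ ∀ v, σ (σ v) ≠ v := by
  obtain ⟨τ, hadj, hinj, h2, hreach⟩ := succ_of_hasHam h
  have hsurj : Function.Surjective τ := Finite.surjective_of_injective hinj
  -- the two cycle neighbours
  let N : V × Fin (j + 2) → V × Fin (j + 2) → Prop := fun a b => τ a = b ∨ τ b = a
  have hNs : ∀ a b, N a b → N b a := fun a b h => h.symm
  have hNadj : ∀ a b, N a b → (subdiv D j).Adj a b := by
    rintro a b (rfl | rfl)
    · exact hadj a
    · exact (hadj b).symm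
  have hN2 : ∀ a, ∃ b c, b ≠ c ∧ N a b ∧ N a c := by
    intro a
    obtain ⟨c, rfl⟩ := hsurj a
    exact ⟨_, c, h2 c, Or.inl rfl, Or.inr rfl⟩
  have hN3 : ∀ a b c d, N a b → N a c → N a d → b = c ∨ b = d ∨ c = d := by
    rintro a b c d (hb | hb) (hc | hc) (hd | hd)
    all_goals first
      | exact Or.inl (hb.symm.trans hc)
      | exact Or.inr (Or.inl (hb.symm.trans hd))
      | exact Or.inr (Or.inr (hc.symm.trans hd))
      | exact Or.inl (hinj (hb.trans hc.symm))
      | exact Or.inr (Or.inl (hinj (hb.trans hd.symm)))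
      | exact Or.inr (Or.inr (hinj (hc.trans hd.symm)))
  have hint : ∀ (v : V) (i : ℕ) (hi : i + 2 < j + 2),
      N (v, ⟨i + 1, by omega⟩) (v, ⟨i, by omega⟩) ∧ N (v, ⟨i + 1, by omega⟩) (v, ⟨i + 2, hi⟩) := by
    intro v i hi
    obtain ⟨b, c, hbc, hb, hc⟩ := hN2 (v, ⟨i + 1, by omega⟩)
    have key : ∀ b, N (v, ⟨i + 1, by omega⟩) b →
        b = (v, ⟨i, by omega⟩) ∨ b = (v, ⟨i + 2, hi⟩) := by
      rintro ⟨w, k⟩ hb
      have := subdiv_adj.1 (hNadj _ _ hb)
      simp only [Prod.mk.injEq, Fin.ext_iff] at this ⊢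
      rcases this with h | h | h | h
      · exact Or.inr ⟨h.1.symm, h.2⟩
      · exact Or.inl ⟨h.1.symm, by omega⟩
      · omega
      · omega
    rcases key b hb with rfl | rfl <;> rcases key c hc with rfl | rfl
    · exact absurd rfl hbc
    · exact ⟨hb, hc⟩
    · exact ⟨hc, hb⟩
    · exact absurd rfl hbc
  have hfirst : ∀ v : V, N (v, 0) (v, ⟨1, by omega⟩) := fun v => hNs _ _ (hint v 0 (by omega)).1
  have hlast : ∀ v : V, N (v, Fin.last (j + 1)) (v, ⟨j, by omega⟩) := by
    intro v
    have := hNs _ _ (hint v (j - 1) (by omega)).2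
    have e1 : (⟨j - 1 + 2, by omega⟩ : Fin (j + 2)) = Fin.last (j + 1) := by
      ext; simp only [Fin.val_last]; omega
    have e2 : (⟨j - 1 + 1, by omega⟩ : Fin (j + 2)) = ⟨j, by omega⟩ := by
      ext; simp only; omega
    rwa [e1, e2] at this
  have hout : ∀ v : V, ∃ w, D v w ∧ N (v, Fin.last (j + 1)) (w, 0) := by
    intro v
    obtain ⟨b, c, hbc, hb, hc⟩ := hN2 (v, Fin.last (j + 1))
    have key : ∀ b, N (v, Fin.last (j + 1)) b →
        b = (v, ⟨j, by omega⟩) ∨ ∃ w, D v w ∧ b = (w, 0) := by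
      rintro ⟨w, k⟩ hb
      have := subdiv_adj.1 (hNadj _ _ hb)
      have hk := k.2
      simp only [Prod.mk.injEq, Fin.ext_iff, Fin.val_last, Fin.val_zero] at this ⊢
      rcases this with h | h | h | h
      · omega
      · exact Or.inl ⟨h.1.symm, by omega⟩
      · exact Or.inr ⟨w, h.2.2, rfl, h.2.1⟩
      · omega
    rcases key b hb with rfl | ⟨w, hw, rfl⟩
    · rcases key c hc with rfl | ⟨w, hw, rfl⟩
      · exact absurd rfl hbc
      · exact ⟨w, hw, hc⟩
    · exact ⟨w, hw, hb⟩
  choose σ hσ hσN using hout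
  have hσinj : Function.Injective σ := by
    intro u u' huu
    have e1 := hNs _ _ (hσN u)
    have e2 := hNs _ _ (hσN u')
    rw [← huu] at e2
    rcases hN3 _ _ _ _ e1 e2 (hfirst _) with h | h | h
    · exact (Prod.ext_iff.1 h).1
    · have := congrArg (fun a => a.2.val) h
      simp at this; omega
    · have := congrArg (fun a => a.2.val) h
      simp at this; omega
  refine ⟨σ, hσ, hσinj, fun u hu => ?_⟩
  -- the two paths of `u` and `σ u` are closed under `τ`
  have hclosed : ∀ a, (a.1 = u ∨ a.1 = σ u) → ((τ a).1 = u ∨ (τ a).1 = σ u) := by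
    rintro ⟨v, i⟩ hv
    have hN : N (v, i) (τ (v, i)) := Or.inl rfl
    have hA := subdiv_adj.1 (hadj (v, i))
    simp only at hv hA
    rcases hA with h | h | h | h
    · rwa [← h.1]
    · rwa [← h.1]
    · have hi : i = Fin.last (j + 1) := Fin.ext h.1
      subst hi
      rcases hN3 _ _ _ _ hN (hσN v) (hlast v) with h' | h' | h'
      · rw [h']
        rcases hv with rfl | rfl
        · exact Or.inr rfl
        · exact Or.inl hu
      · rwa [h']
      · have := congrArg (fun a => a.2.val) h'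
        simp at this; omega
    · have hi : i = 0 := Fin.ext h.2.1
      subst hi
      obtain ⟨w, hw, hw'⟩ : ∃ w, σ w = v ∧ (w = u ∨ w = σ u) := by
        rcases hv with rfl | rfl
        · exact ⟨_, hu, Or.inr rfl⟩
        · exact ⟨_, rfl, Or.inl rfl⟩
      have e1 := hNs _ _ (hσN w)
      rw [hw] at e1
      rcases hN3 _ _ _ _ hN e1 (hfirst v) with h' | h' | h'
      · rwa [h']
      · rwa [h']
      · have := congrArg (fun a => a.2.val) h'
        simp at this; omega
  have hall : ∀ n, ((τ^[n] (u, 0)).1 = u ∨ (τ^[n] (u, 0)).1 = σ u) := by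
    intro n
    induction n with
    | zero => exact Or.inl rfl
    | succ n ih => rw [Function.iterate_succ_apply']; exact hclosed _ ih
  have hsub : (Finset.univ : Finset V) ⊆ {u, σ u} := by
    intro v _
    obtain ⟨n, hn⟩ := hreach (u, 0) (v, 0)
    have := hall n
    rw [hn] at this
    simpa using this
  have := Finset.card_le_card hsub
  have h2 := Finset.card_le_two (a := u) (b := σ u)
  rw [Finset.card_univ] at this
  omega

theorem treeH_adj_path {j : ℕ} (i : ℕ) (hi : i < j) :
    (treeH j).Adj ⟨i, by omega⟩ ⟨i + 1, by omega⟩ := by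
  simp only [treeH, fromRel_adj, ne_eq, Fin.mk.injEq, true_and]
  omega

theorem treeH_adj_left {j : ℕ} (e : ℕ) (h1 : 1 ≤ e) (h2 : e ≤ 2) :
    (treeH j).Adj ⟨0, by omega⟩ ⟨j + e, by omega⟩ := by
  simp only [treeH, fromRel_adj, ne_eq, Fin.mk.injEq, true_and]
  omega

theorem treeH_adj_right {j : ℕ} (e : ℕ) (h1 : 3 ≤ e) (h2 : e ≤ 4) :
    (treeH j).Adj ⟨j, by omega⟩ ⟨j + e, by omega⟩ := by
  simp only [treeH, fromRel_adj, ne_eq, Fin.mk.injEq, true_and]
  omega

omit [DecidableEq V] [Fintype V] in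
/-- If the components of the bipartite graph of arcs have at most `j + 2` vertices, the
subdivided graph has no subgraph `H_j`. -/
theorem subdiv_free {C : Type} {D : V → V → Prop} {j L : ℕ} (hj : 1 ≤ j) (hL : L ≤ j + 2)
    (comp : V × Bool → C) (tag : V × Bool → ℕ) (htag : ∀ e, tag e < L)
    (hinj : ∀ e e', comp e = comp e' → tag e = tag e' → e = e')
    (hD : ∀ u w, D u w → comp (u, true) = comp (w, false)) : (treeH j).Free (subdiv D j) := by
  rintro ⟨φ⟩
  let End : V × Fin (j + 2) → Prop := fun a => a.2.val = 0 ∨ a.2.val = j + 1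
  let nm : V × Fin (j + 2) → V × Bool := fun a => (a.1, decide (a.2.val ≠ 0))
  have hnm : ∀ a b, End a → End b → nm a = nm b → a = b := by
    rintro ⟨v, i⟩ ⟨w, k⟩ ha hb h
    simp only [End, nm, Prod.mk.injEq, decide_eq_decide, Fin.ext_iff] at ha hb h ⊢
    exact ⟨h.1, by omega⟩
  have hcomp : ∀ a b, End a → End b → (subdiv D j).Adj a b → comp (nm a) = comp (nm b) := by
    rintro ⟨v, i⟩ ⟨w, k⟩ ha hb h
    rw [subdiv_adj] at h
    simp only [End, nm] at ha hb h ⊢
    rcases h with h | h | h | h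
    · omega
    · omega
    · simpa [h.1, h.2.1] using hD _ _ h.2.2
    · simpa [h.1, h.2.1] using (hD _ _ h.2.2).symm
  -- a vertex with three neighbours is an end
  have hdeg : ∀ a b c d, (subdiv D j).Adj a b → (subdiv D j).Adj a c → (subdiv D j).Adj a d →
      b ≠ c → b ≠ d → c ≠ d → End a := by
    rintro ⟨v, i⟩ ⟨vb, ib⟩ ⟨vc, ic⟩ ⟨vd, id⟩ hb hc hd hbc hbd hcd
    by_contra hE
    rw [subdiv_adj] at hb hc hd
    simp only [End, ne_eq, Prod.mk.injEq, Fin.ext_iff, not_or] at *
    grind
  -- an end has only one neighbour that is not an end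
  have hone : ∀ a b c, End a → (subdiv D j).Adj a b → (subdiv D j).Adj a c → b ≠ c →
      End b ∨ End c := by
    rintro ⟨v, i⟩ ⟨vb, ib⟩ ⟨vc, ic⟩ ha hb hc hbc
    have := ib.2
    have := ic.2
    rw [subdiv_adj] at hb hc
    simp only [End, ne_eq, Prod.mk.injEq, Fin.ext_iff] at *
    grind
  let p : ℕ → V × Fin (j + 2) := fun i => φ ⟨min i (j + 4), by omega⟩
  have hp : ∀ i (hi : i < j + 5), p i = φ ⟨i, hi⟩ := fun i hi => by
    simp only [p]; congr 2; omega
  have hpinj : ∀ i < j + 5, ∀ k < j + 5, p i = p k → i = k := fun i hi k hk h => by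
    rw [hp i hi, hp k hk] at h
    simpa using φ.injective h
  have hpath : ∀ i < j, (subdiv D j).Adj (p i) (p (i + 1)) := fun i hi => by
    rw [hp i (by omega), hp (i + 1) (by omega)]
    exact φ.toHom.map_adj (treeH_adj_path i hi)
  have hleft : ∀ e, 1 ≤ e → e ≤ 2 → (subdiv D j).Adj (p 0) (p (j + e)) := fun e h1 h2 => by
    rw [hp 0 (by omega), hp (j + e) (by omega)]
    exact φ.toHom.map_adj (treeH_adj_left e h1 h2)
  have hright : ∀ e, 3 ≤ e → e ≤ 4 → (subdiv D j).Adj (p j) (p (j + e)) := fun e h1 h2 => by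
    rw [hp j (by omega), hp (j + e) (by omega)]
    exact φ.toHom.map_adj (treeH_adj_right e h1 h2)
  have hne : ∀ i k, i < j + 5 → k < j + 5 → i ≠ k → p i ≠ p k :=
    fun i k hi hk h h' => h (hpinj i hi k hk h')
  have hE0 : End (p 0) := hdeg _ _ _ _ (hpath 0 hj) (hleft 1 le_rfl one_le_two)
    (hleft 2 one_le_two le_rfl) (hne _ _ (by omega) (by omega) (by omega))
    (hne _ _ (by omega) (by omega) (by omega)) (hne _ _ (by omega) (by omega) (by omega))
  have hEj : End (p j) := by
    have := (hpath (j - 1) (by omega)).symm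
    rw [show j - 1 + 1 = j by omega] at this
    exact hdeg _ _ _ _ this (hright 3 le_rfl (by omega))
      (hright 4 (by omega) le_rfl) (hne _ _ (by omega) (by omega) (by omega))
      (hne _ _ (by omega) (by omega) (by omega)) (hne _ _ (by omega) (by omega) (by omega))
  -- the path never enters the interior of a long path
  have hE : ∀ i ≤ j, End (p i) := by
    intro i
    induction i with
    | zero => intro _; exact hE0
    | succ i ih =>
      intro hi
      have hEi := ih (by omega)
      by_contra hn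
      have key : ∀ t, 1 ≤ t → i + t ≤ j → (p (i + t)).1 = (p i).1 ∧ (p (i + t - 1)).1 = (p i).1 ∧
          (((p i).2.val = 0 ∧ (p (i + t)).2.val = t ∧ (p (i + t - 1)).2.val + 1 = t) ∨
          ((p i).2.val = j + 1 ∧ (p (i + t)).2.val + t = j + 1 ∧
            (p (i + t - 1)).2.val + t = j + 2)) := by
        intro t ht
        induction t, ht using Nat.le_induction with
        | base =>
          intro _
          have := subdiv_adj.1 (hpath i (by omega))
          simp only [End, add_tsub_cancel_right] at *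
          grind
        | succ t ht ih =>
          intro hit
          have h1 := ih (by omega)
          have h2 := subdiv_adj.1 (hpath (i + t) (by omega))
          have h3 := hne (i + t + 1) (i + t - 1) (by omega) (by omega) (by omega)
          rw [Ne, Prod.ext_iff, Fin.ext_iff] at h3
          rw [← add_assoc, add_tsub_cancel_right]
          grind
      have := key (j - i) (by omega) (by omega)
      rw [show i + (j - i) = j by omega] at this
      simp only [End] at hEj
      omega
  have hc : ∀ i ≤ j, comp (nm (p i)) = comp (nm (p 0)) := by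
    intro i
    induction i with
    | zero => intro _; rfl
    | succ i ih =>
      intro hi
      rw [← ih (by omega)]
      exact (hcomp _ _ (hE i (by omega)) (hE _ hi) (hpath i hi)).symm
  obtain ⟨e₁, he₁, hE₁⟩ : ∃ e, (1 ≤ e ∧ e ≤ 2) ∧ End (p (j + e)) := by
    rcases hone _ _ _ hE0 (hleft 1 le_rfl one_le_two) (hleft 2 one_le_two le_rfl)
      (hne _ _ (by omega) (by omega) (by omega)) with h | h
    · exact ⟨1, by omega, h⟩
    · exact ⟨2, by omega, h⟩
  obtain ⟨e₂, he₂, hE₂⟩ : ∃ e, (3 ≤ e ∧ e ≤ 4) ∧ End (p (j + e)) := by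
    rcases hone _ _ _ hEj (hright 3 le_rfl (by omega)) (hright 4 (by omega) le_rfl)
      (hne _ _ (by omega) (by omega) (by omega)) with h | h
    · exact ⟨3, by omega, h⟩
    · exact ⟨4, by omega, h⟩
  let ix : ℕ → ℕ := fun i => if i ≤ j then i else if i = j + 1 then j + e₁ else j + e₂
  have hix : ∀ i, End (p (ix i)) ∧ comp (nm (p (ix i))) = comp (nm (p 0)) := by
    intro i
    simp only [ix]
    split_ifs with h1 h2
    · exact ⟨hE i h1, hc i h1⟩
    · exact ⟨hE₁, (hcomp _ _ hE0 hE₁ (hleft _ he₁.1 he₁.2)).symm⟩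
    · exact ⟨hE₂, (hcomp _ _ hEj hE₂ (hright _ he₂.1 he₂.2)).symm.trans (hc j le_rfl)⟩
  have hcard := Finset.card_le_card_of_injOn (s := Finset.range (j + 3)) (t := Finset.range L)
    (fun i => tag (nm (p (ix i)))) (fun i _ => by simpa using htag _) (by
      intro i hi k hk h
      simp only [Finset.coe_range, Set.mem_Iio] at hi hk
      have h1 := hnm _ _ (hix i).1 (hix k).1 (hinj _ _ ((hix i).2.trans (hix k).2.symm) h)
      have h2 := hpinj _ (by simp only [ix]; split_ifs <;> omega) _
        (by simp only [ix]; split_ifs <;> omega) h1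
      simp only [ix] at h2
      split_ifs at h2 <;> omega)
  simp only [Finset.card_range] at hcard
  omega

end Pool.Agent.MP_2e8011_lc
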